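import Pool.Agent.Lib.MP_361a6f_ag.SQ.Tot

/-!
# Algebraic operators
-/

open CategoryTheory AlgebraicGeometry MonoidalCategory CartesianMonoidalCategory

universe u v w

set_option linter.unusedSectionVars false

namespace Pool.Agent.Lib.MP_361a6f_ag.SQ

open Pool.Agent.Lib.MP_361a6f_ag.H3

variable {k : Type u} [Field k] {K : Type v} [Field K] [CharZero K]
  {W : CohomologyData.{u, v, w} k K} {𝒱 : VarietyClass k}


section op

variable (hW : IsWeilCohomology W 𝒱) {X : Sch k} {n : ℕ} (hX : 𝒱.mem X n)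
include hW hX

/-- `act` for sums of algebraic classes -/
theorem act_tr' {γ : W.coh (X ⊗ X)} (hγ : γ ∈ tot W (X ⊗ X)) (s t : W.coh X) :
    W.tr X (act W γ s * t) = bil W γ s t := by
  have hXX := 𝒱.prod hX hX
  rw [act, hW.push_adj hXX hX, bil, mul_assoc, mul_assoc, tot_comm hW hXX hγ]

/-- an operator is algebraic if its bilinear form is -/
theorem AlgOp.of_bil {u : W.coh X →ₗ[K] W.coh X} {γ : W.coh (X ⊗ X)} (hγ : γ ∈ tot W (X ⊗ X))
    (h : ∀ s t, W.tr X (u s * t) = bil W γ s t) : AlgOp W X u := by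
  refine ⟨γ, hγ, fun s => ?_⟩
  rw [← sub_eq_zero]
  refine hW.duality hX _ (fun t => ?_)
  rw [sub_mul, map_sub, h s t, act_tr' hW hX hγ, sub_self]

theorem AlgOp.zero : AlgOp W X 0 := by
  refine ⟨0, zero_mem _, fun s => ?_⟩
  rw [act, mul_zero, map_zero, LinearMap.zero_apply]

theorem AlgOp.add {u u' : W.coh X →ₗ[K] W.coh X} (h : AlgOp W X u) (h' : AlgOp W X u') :
    AlgOp W X (u + u') := by
  obtain ⟨γ, hγ, hu⟩ := h
  obtain ⟨γ', hγ', hu'⟩ := h'
  refine ⟨γ + γ', add_mem hγ hγ', fun s => ?_⟩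
  rw [LinearMap.add_apply, hu, hu', act, act, act, mul_add, map_add]

theorem AlgOp.smul (q : ℚ) {u : W.coh X →ₗ[K] W.coh X} (h : AlgOp W X u) :
    AlgOp W X ((q : K) • u) := by
  obtain ⟨γ, hγ, hu⟩ := h
  refine ⟨(q : K) • γ, tot_smul hW (𝒱.prod hX hX) q hγ, fun s => ?_⟩
  rw [LinearMap.smul_apply, hu, act, act, mul_smul_comm, map_smul]

/-- the composition of sums of algebraic classes -/
theorem comp_tot {γ γ' : W.coh (X ⊗ X)} (hγ : γ ∈ tot W (X ⊗ X))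
    (hγ' : γ' ∈ tot W (X ⊗ X)) : comp W γ γ' ∈ tot W (X ⊗ X) := by
  have hXX := 𝒱.prod hX hX
  have h3 := 𝒱.prod hXX hX
  exact tot_push hW h3 hXX _ (tot_mul hW h3 (tot_pull hW h3 hXX _ hγ) (tot_pull hW h3 hXX _ hγ'))

theorem comp_bil' {γ γ' : W.coh (X ⊗ X)} (hγ : γ ∈ tot W (X ⊗ X))
    (hγ' : γ' ∈ tot W (X ⊗ X)) (s t : W.coh X) :
    bil W (comp W γ γ') s t = bil W γ' (act W γ s) t := by
  have hXX := 𝒱.prod hX hX
  have h3 := 𝒱.prod hXX hX
  rw [bil, ← tot_comm hW hXX (comp_tot hW hX hγ hγ'), comp, hW.push_adj h3 hXX]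
  have e1 : W.pull (pr13 X) (W.pull (fst X X) s * W.pull (snd X X) t)
      = W.pull (fst (X ⊗ X) X) (W.pull (fst X X) s)
        * W.pull (pr23 X X) (W.pull (snd X X) t) := by
    rw [map_mul, ← W.pull_comp, ← W.pull_comp, ← W.pull_comp, ← W.pull_comp]
    congr 3
    · simp [pr13]
    · simp [pr13, pr23]
  have e2 : W.pull (fst (X ⊗ X) X) γ * W.pull (pr23 X X) γ'
        * (W.pull (fst (X ⊗ X) X) (W.pull (fst X X) s)
        * W.pull (pr23 X X) (W.pull (snd X X) t))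
      = W.pull (fst (X ⊗ X) X) (W.pull (fst X X) s * γ)
        * W.pull (pr23 X X) (W.pull (snd X X) t * γ') := by
    rw [map_mul, map_mul, mul_assoc (W.pull (fst (X ⊗ X) X) γ),
      ← mul_assoc (W.pull (pr23 X X) γ'),
      tot_comm hW h3 (tot_pull hW h3 hXX (pr23 X X) hγ') (W.pull (fst (X ⊗ X) X) _),
      mul_assoc, ← mul_assoc (W.pull (fst (X ⊗ X) X) γ),
      tot_comm hW h3 (tot_pull hW h3 hXX (fst (X ⊗ X) X) hγ),
      tot_comm hW h3 (tot_pull hW h3 hXX (pr23 X X) hγ')]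
  rw [e1, e2, tr_triple hW hX, tr_mul_push_fst hW hX, bil, act, mul_assoc]

theorem AlgOp.comp {u u' : W.coh X →ₗ[K] W.coh X} (h : AlgOp W X u) (h' : AlgOp W X u') :
    AlgOp W X (u ∘ₗ u') := by
  obtain ⟨γ, hγ, hu⟩ := h
  obtain ⟨γ', hγ', hu'⟩ := h'
  refine AlgOp.of_bil hW hX (comp_tot hW hX hγ' hγ) (fun s t => ?_)
  rw [LinearMap.comp_apply, hu, hu', act_tr' hW hX hγ, comp_bil' hW hX hγ' hγ]

/-- the bilinear form of the push-forward of a class under `(f, g)` -/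
theorem bil_push_lift (f g : X ⟶ X) {ζ : W.coh X} (hζ : ζ ∈ tot W X) (s t : W.coh X) :
    bil W (W.push (lift f g) ζ) s t = W.tr X (ζ * (W.pull f s * W.pull g t)) := by
  have hXX := 𝒱.prod hX hX
  rw [bil, ← tot_comm hW hXX (tot_push hW hX hXX _ hζ), hW.push_adj hX hXX,
    map_mul (W.pull (lift f g)), ← W.pull_comp, ← W.pull_comp, lift_fst, lift_snd]

theorem one_tot : (1 : W.coh X) ∈ tot W X := alg_le_tot hW X 0 (hW.one_alg hX)

theorem AlgOp.id : AlgOp W X LinearMap.id := by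
  refine AlgOp.of_bil hW hX (tot_push hW hX (𝒱.prod hX hX) (lift (𝟙 X) (𝟙 X))
    (one_tot hW hX)) (fun s t => ?_)
  rw [bil_push_lift hW hX _ _ (one_tot hW hX), W.pull_id, W.pull_id, one_mul, LinearMap.id_apply]

theorem AlgOp.mulLeft {ξ : W.coh X} (hξ : ξ ∈ tot W X) : AlgOp W X (LinearMap.mulLeft K ξ) := by
  refine AlgOp.of_bil hW hX (tot_push hW hX (𝒱.prod hX hX) (lift (𝟙 X) (𝟙 X)) hξ)
    (fun s t => ?_)
  rw [bil_push_lift hW hX _ _ hξ, W.pull_id, W.pull_id, LinearMap.mulLeft_apply, mul_assoc]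

theorem AlgOp.pull (F : X ⟶ X) : AlgOp W X (W.pull F).toLinearMap := by
  refine AlgOp.of_bil hW hX (tot_push hW hX (𝒱.prod hX hX) (lift F (𝟙 X))
    (one_tot hW hX)) (fun s t => ?_)
  rw [bil_push_lift hW hX _ _ (one_tot hW hX), W.pull_id, one_mul, AlgHom.toLinearMap_apply]

theorem AlgOp.rankOne {a b : W.coh X} (ha : a ∈ tot W X) (hb : b ∈ tot W X)
    {u : W.coh X →ₗ[K] W.coh X} (hu : ∀ s, u s = W.tr X (s * a) • b) : AlgOp W X u := by
  have hXX := 𝒱.prod hX hX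
  refine ⟨W.pull (fst X X) a * W.pull (snd X X) b,
    tot_mul hW hXX (tot_pull hW hXX hX _ ha) (tot_pull hW hXX hX _ hb), fun s => ?_⟩
  rw [hu, act, ← mul_assoc, ← map_mul, push_snd hW hX]

/-- algebraic operators map algebraic classes to algebraic classes -/
theorem AlgOp.apply {u : W.coh X →ₗ[K] W.coh X} (h : AlgOp W X u) {x : W.coh X}
    (hx : x ∈ tot W X) : u x ∈ tot W X := by
  have hXX := 𝒱.prod hX hX
  obtain ⟨γ, hγ, hu⟩ := h
  rw [hu, act]
  exact tot_push hW hXX hX _ (tot_mul hW hXX (tot_pull hW hXX hX _ hx) hγ)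

end op

end Pool.Agent.Lib.MP_361a6f_ag.SQ
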