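import Pool.Agent.Lib.MP_361a6f_ag.SQ.Ten
import Pool.Agent.Lib.MP_361a6f_ag.SQ.Op

/-!
# Rational traces of algebraic operators
-/

open CategoryTheory AlgebraicGeometry MonoidalCategory CartesianMonoidalCategory

universe u v w

set_option linter.unusedSectionVars false

namespace Pool.Agent.Lib.MP_361a6f_ag.SQ

open Pool.Agent.Lib.MP_361a6f_ag.H3

variable {k : Type u} [Field k] {K : Type v} [Field K] [CharZero K]
  {W : CohomologyData.{u, v, w} k K} {𝒱 : VarietyClass k}

/-- `Tr(x y) = (-1)^i Tr(y x)` for `x` of degree `i` -/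
theorem tr_comm_gr (hW : IsWeilCohomology W 𝒱) {X : Sch k} {n : ℕ} (hX : 𝒱.mem X n) {i : ℕ}
    {x : W.coh X} (hx : x ∈ W.gr X i) (y : W.coh X) :
    W.tr X (x * y) = (-1) ^ i * W.tr X (y * x) := by
  refine hW.hom_induction hX (P := fun y => W.tr X (x * y) = (-1) ^ i * W.tr X (y * x)) y ?_ ?_ ?_
  · intro j y hy
    rw [hW.comm_gr hX hx hy, map_smul, smul_eq_mul]
    by_cases hij : i + j = 2 * n
    · congr 1
      rcases Nat.even_or_odd i with h | h
      · rw [h.neg_one_pow, (h.mul_right j).neg_one_pow]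
      · have hj : Odd j := by
          rcases Nat.even_or_odd j with hj | hj
          · exfalso
            have := Odd.add_even h hj
            rw [hij] at this
            exact (Nat.not_odd_iff_even.2 (even_two_mul n)) this
          · exact hj
        rw [h.neg_one_pow, (h.mul hj).neg_one_pow]
    · rw [hW.tr_gr hX (hW.mul_gr hX hy hx) (by omega), mul_zero, mul_zero]
  · simp
  · intro a b ha hb
    rw [mul_add, map_add, ha, hb, add_mul, map_add, mul_add]

/-- a class on `X × X` is determined by its operator -/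
theorem eq_zero_of_act (hW : IsWeilCohomology W 𝒱) {X : Sch k} {n : ℕ} (hX : 𝒱.mem X n)
    {z : W.coh (X ⊗ X)} (h : ∀ s, act W z s = 0) : z = 0 := by
  have hXX := 𝒱.prod hX hX
  refine eq_of_tr hW hX hX z 0 (fun i i' y hy x hx => ?_)
  rw [zero_mul, map_zero,
    hW.comm_gr hXX (hW.pull_gr hXX hX (fst X X) hy) (hW.pull_gr hXX hX (snd X X) hx),
    mul_smul_comm, map_smul, ← mul_assoc]
  have e1 := tr_comm_gr hW hXX (hW.pull_gr hXX hX (fst X X) hy) (z * W.pull (snd X X) x)
  have e2 : W.tr (X ⊗ X) (W.pull (fst X X) y * (z * W.pull (snd X X) x)) = 0 := by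
    rw [← mul_assoc, ← hW.push_adj hXX hX]
    have := h y
    rw [act] at this
    rw [this, zero_mul, map_zero]
  rw [e2] at e1
  have e3 : W.tr (X ⊗ X) (z * W.pull (snd X X) x * W.pull (fst X X) y) = 0 := by
    rcases mul_eq_zero.1 e1.symm with h0 | h0
    · exact absurd h0 (pow_ne_zero _ (neg_ne_zero.2 one_ne_zero))
    · exact h0
  rw [e3, smul_zero]

/-- the trace of an algebraic operator that lives in one degree is rational -/
theorem trace_rat (hW : IsWeilCohomology W 𝒱) {X : Sch k} {n : ℕ} (hX : 𝒱.mem X n)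
    {u : W.coh X →ₗ[K] W.coh X} (hu : AlgOp W X u) {i : ℕ} (h1 : ∀ s, u s ∈ W.gr X i)
    (_h2 : ∀ l, l ≠ i → ∀ s ∈ W.gr X l, u s = 0) :
    ∃ r : ℚ, LinearMap.trace K (W.coh X) u = r := by
  classical
  have := hW.finite hX
  have hXX := 𝒱.prod hX hX
  obtain ⟨γ, hγ, hu⟩ := hu
  obtain ⟨m, b, b', hb⟩ := exists_dual hW hX
  have eγ : γ = ∑ j, W.pull (fst X X) (b' j) * W.pull (snd X X) (u (b j)) := by
    rw [← sub_eq_zero]
    refine eq_zero_of_act hW hX (fun s => ?_)
    have e1 : act W (γ - ∑ j, W.pull (fst X X) (b' j) * W.pull (snd X X) (u (b j))) s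
        = act W γ s - ∑ j, W.tr X (s * b' j) • u (b j) := by
      rw [act, act, mul_sub, map_sub, Finset.mul_sum, map_sum]
      congr 1
      refine Finset.sum_congr rfl fun j _ => ?_
      rw [← mul_assoc, ← map_mul, push_snd hW hX]
    rw [e1, ← hu s]
    conv_lhs => rw [show u s = u (∑ j, W.tr X (s * b' j) • b j) by rw [← hb s]]
    rw [map_sum]
    simp only [map_smul, sub_self]
  have etr : LinearMap.trace K (W.coh X) u = ∑ j, W.tr X (u (b j) * b' j) := by
    have e2 : u = ∑ j, ((W.tr X) ∘ₗ (LinearMap.mulRight K (b' j)) ∘ₗ u).smulRight (b j) := by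
      refine LinearMap.ext fun s => ?_
      conv_lhs => rw [hb (u s)]
      simp [LinearMap.sum_apply]
    conv_lhs => rw [e2]
    rw [map_sum]
    refine Finset.sum_congr rfl fun j _ => ?_
    rw [LinearMap.trace_smulRight]
    rfl
  obtain ⟨q, hq⟩ := tot_tr hW hX (tot_pull hW hX hXX (lift (𝟙 X) (𝟙 X)) hγ)
  refine ⟨(-1) ^ i * q, ?_⟩
  have e3 : W.tr X (W.pull (lift (𝟙 X) (𝟙 X)) γ) = ∑ j, W.tr X (b' j * u (b j)) := by
    conv_lhs => rw [eγ]
    rw [map_sum, map_sum]
    refine Finset.sum_congr rfl fun j _ => ?_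
    rw [map_mul, ← W.pull_comp, ← W.pull_comp, lift_fst, lift_snd, W.pull_id, W.pull_id]
  rw [etr]
  push_cast
  rw [← hq, e3, Finset.mul_sum]
  exact Finset.sum_congr rfl fun j _ => tr_comm_gr hW hX (h1 (b j)) (b' j)

end Pool.Agent.Lib.MP_361a6f_ag.SQ
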