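import Pool.Agent.Lib.MP_361a6f_ag.SQ.Core

/-!
# The Lefschetz decomposition
-/

open CategoryTheory AlgebraicGeometry MonoidalCategory CartesianMonoidalCategory

universe u v w

set_option linter.unusedSectionVars false

namespace Pool.Agent.Lib.MP_361a6f_ag.SQ

open Pool.Agent.Lib.MP_361a6f_ag.H3

variable {k : Type u} [Field k] {K : Type v} [Field K] [CharZero K]
  {W : CohomologyData.{u, v, w} k K} {𝒱 : VarietyClass k}

section

variable (hW : IsWeilCohomology W 𝒱) {X : Sch k} {n : ℕ} (hX : 𝒱.mem X n) {ξ : W.coh X}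
  (hξ : ξ ∈ W.alg X 1)

include hW hX hξ in
theorem pow_gr (b : ℕ) : ξ ^ b ∈ W.gr X (2 * b) := hW.alg_gr hX (hW.pow_alg hX hξ b)

include hW hX in
/-- Poincaré duality in the degree `j` -/
theorem eq_zero_of_tr {i j : ℕ} (hij : i + j = 2 * n) {y : W.coh X} (hy : y ∈ W.gr X j)
    (h : ∀ x ∈ W.gr X i, W.tr X (y * x) = 0) : y = 0 := by
  refine hW.duality hX _ (fun z => ?_)
  refine hW.hom_induction hX (P := fun z => W.tr X (y * z) = 0) z ?_ ?_ ?_
  · intro m z hz
    by_cases hm : m = i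
    · subst hm
      exact h z hz
    · exact hW.tr_gr hX (hW.mul_gr hX hy hz) (by omega)
  · simp
  · intro p q hp hq
    rw [mul_add, map_add, hp, hq, add_zero]

include hW hX hξ in
/-- hard Lefschetz: surjectivity -/
theorem lef_surj (hL : HardLefschetz W X n ξ) {i : ℕ} (hi : i ≤ n) {y : W.coh X}
    (hy : y ∈ W.gr X (2 * n - i)) : ∃ x ∈ W.gr X i, ξ ^ (n - i) * x = y := by
  have := hW.finite hX
  let a : W.gr X i →ₗ[K] W.gr X (2 * n - i) :=
    { toFun := fun x => ⟨ξ ^ (n - i) * x.1, by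
        have := hW.mul_gr hX (pow_gr hW hX hξ (n - i)) x.2
        rwa [show 2 * (n - i) + i = 2 * n - i by omega] at this⟩
      map_add' := fun x x' => Subtype.ext (mul_add _ _ _)
      map_smul' := fun c x => Subtype.ext (mul_smul_comm _ _ _) }
  let b : W.gr X (2 * n - i) →ₗ[K] Module.Dual K (W.gr X i) :=
    { toFun := fun y =>
        { toFun := fun x => W.tr X (y.1 * x.1)
          map_add' := fun x x' => by rw [Submodule.coe_add, mul_add, map_add]
          map_smul' := fun c x => by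
            rw [Submodule.coe_smul, mul_smul_comm, map_smul, RingHom.id_apply] }
      map_add' := fun x x' => by
        refine LinearMap.ext (fun z => ?_)
        change W.tr X ((x.1 + x'.1) * z.1) = W.tr X (x.1 * z.1) + W.tr X (x'.1 * z.1)
        rw [add_mul, map_add]
      map_smul' := fun c x => by
        refine LinearMap.ext (fun z => ?_)
        change W.tr X ((c • x.1) * z.1) = c • W.tr X (x.1 * z.1)
        rw [smul_mul_assoc, map_smul] }
  have ha : Function.Injective a := by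
    rw [injective_iff_map_eq_zero]
    intro x hx
    exact Subtype.ext (hL i x.1 hi x.2 (congrArg Subtype.val hx))
  have hb : Function.Injective b := by
    rw [injective_iff_map_eq_zero]
    intro x hx
    refine Subtype.ext (eq_zero_of_tr hW hX (i := i) (by omega) x.2 (fun z hz => ?_))
    exact LinearMap.congr_fun hx ⟨z, hz⟩
  have h1 := LinearMap.finrank_le_finrank_of_injective ha
  have h2 := LinearMap.finrank_le_finrank_of_injective hb
  rw [Subspace.dual_finrank_eq] at h2
  have h3 := (LinearMap.injective_iff_surjective_of_finrank_eq_finrank (le_antisymm h1 h2)).1 ha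
  obtain ⟨x, hx⟩ := h3 ⟨y, hy⟩
  exact ⟨x.1, x.2, congrArg Subtype.val hx⟩

/-- the span of all `ξ^r x`, `x` primitive of degree at most `n` -/
def LS (W : CohomologyData.{u, v, w} k K) (X : Sch k) (n : ℕ) (ξ : W.coh X) :
    Submodule K (W.coh X) :=
  Submodule.span K {y | ∃ i r x, i ≤ n ∧ x ∈ PS W X n ξ i ∧ y = ξ ^ r * x}

theorem LS_pow (c : ℕ) {y : W.coh X} (hy : y ∈ LS W X n ξ) : ξ ^ c * y ∈ LS W X n ξ := by
  refine Submodule.span_induction (p := fun y _ => ξ ^ c * y ∈ LS W X n ξ) ?_ ?_ ?_ ?_ hy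
  · rintro _ ⟨i, r, x, hi, hx, rfl⟩
    exact Submodule.subset_span ⟨i, c + r, x, hi, hx, by rw [pow_add, mul_assoc]⟩
  · rw [mul_zero]; exact zero_mem _
  · intro p q _ _ hp hq
    rw [mul_add]; exact add_mem hp hq
  · intro c p _ hp
    rw [mul_smul_comm]; exact Submodule.smul_mem _ _ hp

include hW hX hξ in
theorem LS_low (hL : HardLefschetz W X n ξ) (i : ℕ) : i ≤ n → ∀ x ∈ W.gr X i,
    x ∈ LS W X n ξ := by
  induction i using Nat.strong_induction_on with
  | _ i ih =>
    intro hi x hx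
    have hp : ∀ z ∈ PS W X n ξ i, z ∈ LS W X n ξ := fun z hz =>
      Submodule.subset_span ⟨i, 0, z, hi, hz, by rw [pow_zero, one_mul]⟩
    have hdeg : ξ ^ (n - i + 1) * x ∈ W.gr X (2 * (n - i + 1) + i) :=
      hW.mul_gr hX (pow_gr hW hX hξ _) hx
    by_cases h2 : i < 2
    · exact hp x ⟨hx, hW.top_gr hX hdeg (by omega)⟩
    · have hdeg' : ξ ^ (n - i + 1) * x ∈ W.gr X (2 * n - (i - 2)) := by
        rwa [show 2 * (n - i + 1) + i = 2 * n - (i - 2) by omega] at hdeg
      obtain ⟨y, hy, hxy⟩ := lef_surj hW hX hξ hL (i := i - 2) (by omega) hdeg'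
      have h3 : x - ξ * y ∈ PS W X n ξ i := by
        refine ⟨sub_mem hx ?_, ?_⟩
        · have := hW.mul_gr hX (pow_gr hW hX hξ 1) hy
          rwa [pow_one, show 2 * 1 + (i - 2) = i by omega] at this
        · rw [mul_sub, ← mul_assoc, ← pow_succ, show n - i + 1 + 1 = n - (i - 2) by omega, hxy,
            sub_self]
      have h4 : x = (x - ξ * y) + ξ ^ 1 * y := by rw [pow_one]; abel
      rw [h4]
      exact add_mem (hp _ h3) (LS_pow 1 (ih (i - 2) (by omega) (by omega) y hy))

include hW hX hξ in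
theorem LS_top (hL : HardLefschetz W X n ξ) (x : W.coh X) : x ∈ LS W X n ξ := by
  refine hW.hom_induction hX (P := fun x => x ∈ LS W X n ξ) x ?_ (zero_mem _)
    (fun _ _ hp hq => add_mem hp hq)
  intro i x hx
  by_cases hi : i ≤ n
  · exact LS_low hW hX hξ hL i hi x hx
  · by_cases hi2 : 2 * n < i
    · rw [hW.top_gr hX hx hi2]; exact zero_mem _
    · have h1 : x ∈ W.gr X (2 * n - (2 * n - i)) := by
        rwa [show 2 * n - (2 * n - i) = i by omega]
      obtain ⟨y, hy, hxy⟩ := lef_surj hW hX hξ hL (i := 2 * n - i) (by omega) h1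
      rw [← hxy]
      exact LS_pow _ (LS_low hW hX hξ hL _ (by omega) y hy)

end

/-- hard Lefschetz implies the primitive decomposition -/
theorem lef_dec (hW : IsWeilCohomology W 𝒱) {X : Sch k} {n : ℕ} (hX : 𝒱.mem X n) {ξ : W.coh X}
    (hξ : ξ ∈ W.alg X 1) (hL : HardLefschetz W X n ξ) (x : W.coh X) :
    ∃ f : ℕ → ℕ → W.coh X, (∀ i r, f i r ∈ PS W X n ξ i) ∧
      x = ∑ i ∈ Finset.range (n + 1), ∑ r ∈ Finset.range (n - i + 1), ξ ^ r * f i r := by
  classical
  refine Submodule.span_induction (p := fun x _ => ∃ f : ℕ → ℕ → W.coh X,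
    (∀ i r, f i r ∈ PS W X n ξ i) ∧
      x = ∑ i ∈ Finset.range (n + 1), ∑ r ∈ Finset.range (n - i + 1), ξ ^ r * f i r) ?_ ?_ ?_ ?_
    (LS_top hW hX hξ hL x)
  · rintro _ ⟨i, r, x, hi, hx, rfl⟩
    by_cases hr : r ≤ n - i
    · refine ⟨fun i' r' => if i' = i ∧ r' = r then x else 0, fun i' r' => ?_, ?_⟩
      · beta_reduce
        by_cases h : i' = i ∧ r' = r
        · rw [if_pos h, h.1]; exact hx
        · rw [if_neg h]; exact zero_mem _
      · beta_reduce
        rw [Finset.sum_eq_single i, Finset.sum_eq_single r]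
        · rw [if_pos ⟨rfl, rfl⟩]
        · intro r' _ h
          rw [if_neg (fun h' => h h'.2), mul_zero]
        · intro h
          exact absurd (Finset.mem_range.2 (by omega)) h
        · intro i' _ h
          refine Finset.sum_eq_zero (fun r' _ => ?_)
          rw [if_neg (fun h' => h h'.1), mul_zero]
        · intro h
          exact absurd (Finset.mem_range.2 (by omega)) h
    · refine ⟨fun _ _ => 0, fun i' r' => zero_mem _, ?_⟩
      obtain ⟨c, rfl⟩ : ∃ c, r = c + (n - i + 1) := ⟨r - (n - i + 1), by omega⟩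
      rw [pow_add, mul_assoc, hx.2]
      simp
  · exact ⟨fun _ _ => 0, fun i' r' => zero_mem _, by simp⟩
  · rintro x y _ _ ⟨f, hf, hfx⟩ ⟨g, hg, hgy⟩
    refine ⟨fun i r => f i r + g i r, fun i r => add_mem (hf i r) (hg i r), ?_⟩
    rw [hfx, hgy, ← Finset.sum_add_distrib]
    refine Finset.sum_congr rfl (fun i _ => ?_)
    rw [← Finset.sum_add_distrib]
    exact Finset.sum_congr rfl (fun r _ => (mul_add _ _ _).symm)
  · rintro c x _ ⟨f, hf, hfx⟩
    refine ⟨fun i r => c • f i r, fun i r => Submodule.smul_mem _ c (hf i r), ?_⟩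
    rw [hfx, Finset.smul_sum]
    refine Finset.sum_congr rfl (fun i _ => ?_)
    rw [Finset.smul_sum]
    exact Finset.sum_congr rfl (fun r _ => (mul_smul_comm _ _ _).symm)

/-- orthogonality of primitive classes of different degrees -/
theorem prim_orth (hW : IsWeilCohomology W 𝒱) {X : Sch k} {n : ℕ} (hX : 𝒱.mem X n) {ξ : W.coh X}
    (hξ : ξ ∈ W.alg X 1) {i i' : ℕ} (hi : i ≤ n) (hi' : i' ≤ n) {x x' : W.coh X}
    (hx : x ∈ PS W X n ξ i) (hx' : x' ∈ PS W X n ξ i') (r : ℕ) (h : i ≠ i' ∨ r + i ≠ n) :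
    W.tr X (ξ ^ r * (x * x')) = 0 := by
  by_cases hd : 2 * r + (i + i') = 2 * n
  · rcases lt_trichotomy i i' with hlt | heq | hgt
    · obtain ⟨c, rfl⟩ : ∃ c, r = c + (n - i' + 1) := ⟨r - (n - i' + 1), by omega⟩
      have e : ξ ^ (c + (n - i' + 1)) * (x * x') = x * (ξ ^ c * (ξ ^ (n - i' + 1) * x')) := by
        rw [← mul_assoc, hW.alg_comm hX (hW.pow_alg hX hξ _) x, mul_assoc, pow_add, mul_assoc]
      rw [e, hx'.2]
      simp
    · omega
    · obtain ⟨c, rfl⟩ : ∃ c, r = c + (n - i + 1) := ⟨r - (n - i + 1), by omega⟩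
      rw [← mul_assoc, pow_add, mul_assoc (ξ ^ c), hx.2]
      simp
  · exact hW.tr_gr hX (hW.mul_gr hX (pow_gr hW hX hξ r) (hW.mul_gr hX hx.1 hx'.1)) hd

end Pool.Agent.Lib.MP_361a6f_ag.SQ
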