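import Pool.Agent.Lib.MP_361a6f_ag.SQ.Ten
import Pool.Agent.Lib.MP_361a6f_ag.SQ.Op

/-!
# Algebraic operators preserve algebraic classes on products
-/

open CategoryTheory AlgebraicGeometry MonoidalCategory CartesianMonoidalCategory

universe u v w

set_option linter.unusedSectionVars false

namespace Pool.Agent.Lib.MP_361a6f_ag.SQ

open Pool.Agent.Lib.MP_361a6f_ag.H3

variable {k : Type u} [Field k] {K : Type v} [Field K] [CharZero K]
  {W : CohomologyData.{u, v, w} k K} {𝒱 : VarietyClass k}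

/-- push-forward of an exterior product along the second projection -/
theorem push_snd_ext (hW : IsWeilCohomology W 𝒱) {A B : Sch k} {a b : ℕ} (hA : 𝒱.mem A a)
    (hB : 𝒱.mem B b) (c : W.coh A) (t : W.coh B) :
    W.push (snd A B) (W.pull (fst A B) c * W.pull (snd A B) t) = W.tr A c • t := by
  have hAB := 𝒱.prod hA hB
  rw [← sub_eq_zero]
  refine hW.duality hB _ (fun v => ?_)
  rw [sub_mul, map_sub, hW.push_adj hAB hB, mul_assoc, ← map_mul, hW.kunneth_tr hA hB,
    smul_mul_assoc, map_smul, smul_eq_mul, sub_self]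

/-- the same with a factor from the base on the left -/
theorem push_snd_mid (hW : IsWeilCohomology W 𝒱) {A B : Sch k} {a b : ℕ} (hA : 𝒱.mem A a)
    (hB : 𝒱.mem B b) (s : W.coh B) (c : W.coh A) (t : W.coh B) :
    W.push (snd A B) (W.pull (snd A B) s * (W.pull (fst A B) c * W.pull (snd A B) t))
      = W.tr A c • (s * t) := by
  have hAB := 𝒱.prod hA hB
  refine hW.hom_induction hA (P := fun c => W.push (snd A B) (W.pull (snd A B) s *
    (W.pull (fst A B) c * W.pull (snd A B) t)) = W.tr A c • (s * t)) c ?_ ?_ ?_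
  · intro i c hc
    refine hW.hom_induction hB (P := fun s => W.push (snd A B) (W.pull (snd A B) s *
      (W.pull (fst A B) c * W.pull (snd A B) t)) = W.tr A c • (s * t)) s ?_ ?_ ?_
    · intro j s hs
      rw [← mul_assoc, hW.comm_gr hAB (hW.pull_gr hAB hB (snd A B) hs)
        (hW.pull_gr hAB hA (fst A B) hc), smul_mul_assoc, mul_assoc, ← map_mul, map_smul,
        push_snd_ext hW hA hB]
      by_cases hi : i = 2 * a
      · have : (-1 : K) ^ (j * i) = 1 := by
          rw [hi, mul_left_comm, pow_mul]; simp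
        rw [this, one_smul]
      · simp [hW.tr_gr hA hc hi]
    · simp
    · intro s s' h h'
      rw [map_add, add_mul, map_add, h, h', add_mul, smul_add]
  · simp
  · intro c c' h h'
    rw [map_add, add_mul, mul_add, map_add, h, h', map_add, add_smul]

/-- the operator on the first factor -/
theorem ten_left_tot (hW : IsWeilCohomology W 𝒱) {Y X : Sch k} {d n : ℕ} (hY : 𝒱.mem Y d)
    (hX : 𝒱.mem X n) {u : W.coh Y →ₗ[K] W.coh Y} (hu : AlgOp W Y u)
    {z : W.coh (Y ⊗ X)} (hz : z ∈ tot W (Y ⊗ X)) :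
    ten hW hY hX u LinearMap.id z ∈ tot W (Y ⊗ X) := by
  obtain ⟨γ, hγ, hu⟩ := hu
  have hYX := 𝒱.prod hY hX
  have hYY := 𝒱.prod hY hY
  have hT := 𝒱.prod hY hYX
  have hgγ : W.pull (lift (fst Y (Y ⊗ X)) (snd Y (Y ⊗ X) ≫ fst Y X)) γ ∈ tot W (Y ⊗ (Y ⊗ X)) :=
    tot_pull hW hT hYY _ hγ
  have key : ten hW hY hX u LinearMap.id = (W.push (snd Y (Y ⊗ X))) ∘ₗ
      (LinearMap.mulRight K (W.pull (lift (fst Y (Y ⊗ X)) (snd Y (Y ⊗ X) ≫ fst Y X)) γ)) ∘ₗ
      (W.pull (lift (fst Y (Y ⊗ X)) (snd Y (Y ⊗ X) ≫ snd Y X))).toLinearMap := by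
    refine lin_ext hW hY hX _ _ (fun y x => ?_)
    rw [ten_gen, LinearMap.comp_apply, LinearMap.comp_apply, AlgHom.toLinearMap_apply,
      LinearMap.mulRight_apply, map_mul (W.pull _), ← W.pull_comp, ← W.pull_comp, lift_fst, lift_snd,
      mul_assoc, ← tot_comm hW hT hgγ, ← mul_assoc, LinearMap.id_apply, hu y, act]
    have e1 : W.pull (fst Y (Y ⊗ X)) y
        * W.pull (lift (fst Y (Y ⊗ X)) (snd Y (Y ⊗ X) ≫ fst Y X)) γ
        = W.pull (lift (fst Y (Y ⊗ X)) (snd Y (Y ⊗ X) ≫ fst Y X)) (W.pull (fst Y Y) y * γ) := by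
      rw [map_mul, ← W.pull_comp, lift_fst]
    rw [e1]
    refine prod_induction hW hY hY (P := fun a => W.pull (fst Y X) (W.push (snd Y Y) a) *
      W.pull (snd Y X) x = W.push (snd Y (Y ⊗ X))
        (W.pull (lift (fst Y (Y ⊗ X)) (snd Y (Y ⊗ X) ≫ fst Y X)) a *
          W.pull (snd Y (Y ⊗ X) ≫ snd Y X) x)) (W.pull (fst Y Y) y * γ) ?_ ?_ ?_ ?_
    · intro c e
      rw [push_snd_ext hW hY hY, map_smul, map_mul (W.pull _), ← W.pull_comp, ← W.pull_comp, lift_fst,
        lift_snd, W.pull_comp, W.pull_comp, mul_assoc, ← map_mul, push_snd_ext hW hY hYX,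
        smul_mul_assoc]
    · simp
    · intro a b ha hb
      rw [map_add, map_add, add_mul, ha, hb, map_add, add_mul, map_add]
    · intro c a ha
      rw [map_smul, map_smul, smul_mul_assoc, ha, map_smul, smul_mul_assoc, map_smul]
  rw [key, LinearMap.comp_apply, LinearMap.comp_apply, AlgHom.toLinearMap_apply,
      LinearMap.mulRight_apply]
  exact tot_push hW hT hYX _ (tot_mul hW hT (tot_pull hW hT hYX _ hz) hgγ)

/-- the operator on the second factor -/
theorem ten_right_tot (hW : IsWeilCohomology W 𝒱) {Y X : Sch k} {d n : ℕ} (hY : 𝒱.mem Y d)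
    (hX : 𝒱.mem X n) {v : W.coh X →ₗ[K] W.coh X} (hv : AlgOp W X v)
    {z : W.coh (Y ⊗ X)} (hz : z ∈ tot W (Y ⊗ X)) :
    ten hW hY hX LinearMap.id v z ∈ tot W (Y ⊗ X) := by
  obtain ⟨γ, hγ, hv⟩ := hv
  have hYX := 𝒱.prod hY hX
  have hXX := 𝒱.prod hX hX
  have hT := 𝒱.prod hX hYX
  have hgγ : W.pull (lift (fst X (Y ⊗ X)) (snd X (Y ⊗ X) ≫ snd Y X)) γ ∈ tot W (X ⊗ (Y ⊗ X)) :=
    tot_pull hW hT hXX _ hγ
  have key : ten hW hY hX LinearMap.id v = (W.push (snd X (Y ⊗ X))) ∘ₗ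
      (LinearMap.mulRight K (W.pull (lift (fst X (Y ⊗ X)) (snd X (Y ⊗ X) ≫ snd Y X)) γ)) ∘ₗ
      (W.pull (lift (snd X (Y ⊗ X) ≫ fst Y X) (fst X (Y ⊗ X)))).toLinearMap := by
    refine lin_ext hW hY hX _ _ (fun y x => ?_)
    rw [ten_gen, LinearMap.comp_apply, LinearMap.comp_apply, AlgHom.toLinearMap_apply,
      LinearMap.mulRight_apply, map_mul (W.pull _), ← W.pull_comp, ← W.pull_comp, lift_fst, lift_snd,
      mul_assoc, LinearMap.id_apply, hv x, act]
    have e1 : W.pull (fst X (Y ⊗ X)) x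
        * W.pull (lift (fst X (Y ⊗ X)) (snd X (Y ⊗ X) ≫ snd Y X)) γ
        = W.pull (lift (fst X (Y ⊗ X)) (snd X (Y ⊗ X) ≫ snd Y X)) (W.pull (fst X X) x * γ) := by
      rw [map_mul, ← W.pull_comp, lift_fst]
    rw [e1]
    refine prod_induction hW hX hX (P := fun a => W.pull (fst Y X) y *
      W.pull (snd Y X) (W.push (snd X X) a) = W.push (snd X (Y ⊗ X))
        (W.pull (snd X (Y ⊗ X) ≫ fst Y X) y *
          W.pull (lift (fst X (Y ⊗ X)) (snd X (Y ⊗ X) ≫ snd Y X)) a)) (W.pull (fst X X) x * γ)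
      ?_ ?_ ?_ ?_
    · intro c e
      rw [push_snd_ext hW hX hX, map_smul, map_mul (W.pull _), ← W.pull_comp, ← W.pull_comp, lift_fst,
        lift_snd, W.pull_comp, W.pull_comp, push_snd_mid hW hX hYX, mul_smul_comm]
    · simp
    · intro a b ha hb
      rw [map_add, map_add, mul_add, ha, hb, map_add, mul_add, map_add]
    · intro c a ha
      rw [map_smul, map_smul, mul_smul_comm, ha, map_smul, mul_smul_comm, map_smul]
  rw [key, LinearMap.comp_apply, LinearMap.comp_apply, AlgHom.toLinearMap_apply,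
      LinearMap.mulRight_apply]
  exact tot_push hW hT hYX _ (tot_mul hW hT (tot_pull hW hT hYX _ hz) hgγ)

/-- `u ⊗ v` maps algebraic classes to algebraic classes if `u`, `v` are algebraic operators -/
theorem ten_tot (hW : IsWeilCohomology W 𝒱) {Y X : Sch k} {d n : ℕ} (hY : 𝒱.mem Y d)
    (hX : 𝒱.mem X n) {u : W.coh Y →ₗ[K] W.coh Y} {v : W.coh X →ₗ[K] W.coh X}
    (hu : AlgOp W Y u) (hv : AlgOp W X v) {z : W.coh (Y ⊗ X)} (hz : z ∈ tot W (Y ⊗ X)) :
    ten hW hY hX u v z ∈ tot W (Y ⊗ X) := by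
  have key : ten hW hY hX u v
      = (ten hW hY hX LinearMap.id v) ∘ₗ (ten hW hY hX u LinearMap.id) := by
    refine lin_ext hW hY hX _ _ (fun y x => ?_)
    rw [LinearMap.comp_apply, ten_gen, ten_gen, ten_gen, LinearMap.id_apply, LinearMap.id_apply]
  rw [key, LinearMap.comp_apply]
  exact ten_right_tot hW hY hX hv (ten_left_tot hW hY hX hu hz)

end Pool.Agent.Lib.MP_361a6f_ag.SQ
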