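import Pool.Agent.Lib.MP_361a6f_ag.SQ.LefDec
import Pool.Agent.Lib.MP_361a6f_ag.SQ.OpTen
import Pool.Agent.Lib.MP_361a6f_ag.H3.Str

/-!
# The Hodge standard conjecture for a product in terms of primitive pieces
-/

open CategoryTheory AlgebraicGeometry MonoidalCategory CartesianMonoidalCategory

universe u v w

set_option linter.unusedSectionVars false

namespace Pool.Agent.Lib.MP_361a6f_ag.SQ

open Pool.Agent.Lib.MP_361a6f_ag.H3

variable {k : Type u} [Field k] {K : Type v} [Field K] [CharZero K]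
  {W : CohomologyData.{u, v, w} k K} {𝒱 : VarietyClass k}

namespace Crit

/-- the projection to a homogeneous component -/
theorem exists_proj (hW : IsWeilCohomology W 𝒱) {Z : Sch k} {e : ℕ} (hZ : 𝒱.mem Z e) (m : ℕ) :
    ∃ π : W.coh Z →ₗ[K] W.coh Z, (∀ x ∈ W.gr Z m, π x = x) ∧
      ∀ m', m' ≠ m → ∀ x ∈ W.gr Z m', π x = 0 := by
  classical
  let E := LinearEquiv.ofBijective (DirectSum.coeLinearMap (W.gr Z)) (hW.internal hZ)
  have hE : ∀ m' (x : W.coh Z) (hx : x ∈ W.gr Z m'),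
      E.symm x = DirectSum.lof K ℕ (fun i => W.gr Z i) m' ⟨x, hx⟩ := by
    intro m' x hx
    rw [LinearEquiv.symm_apply_eq]
    change x = DirectSum.coeLinearMap (W.gr Z) _
    rw [DirectSum.coeLinearMap_lof]
  refine ⟨(W.gr Z m).subtype ∘ₗ DirectSum.component K ℕ (fun i => W.gr Z i) m
    ∘ₗ E.symm.toLinearMap, fun x hx => ?_, fun m' hm x hx => ?_⟩
  · rw [LinearMap.comp_apply, LinearMap.comp_apply, LinearEquiv.coe_coe, hE m x hx,
      DirectSum.component.lof_self]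
    rfl
  · rw [LinearMap.comp_apply, LinearMap.comp_apply, LinearEquiv.coe_coe, hE m' x hx,
      DirectSum.component.of, dif_neg hm, map_zero]

theorem gr_unique (hW : IsWeilCohomology W 𝒱) {Z : Sch k} {e : ℕ} (hZ : 𝒱.mem Z e) {m m' : ℕ}
    (hm : m' ≠ m) {x : W.coh Z} (h : x ∈ W.gr Z m) (h' : x ∈ W.gr Z m') : x = 0 := by
  obtain ⟨π, h1, h2⟩ := exists_proj hW hZ m
  rw [← h1 x h, h2 m' hm x h']

/-- the index set of the Lefschetz decomposition -/
def ix (n : ℕ) : Finset (ℕ × ℕ) :=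
  (Finset.range (n + 1) ×ˢ Finset.range (n + 1)).filter (fun q => q.1 + q.2 ≤ n)

theorem mem_ix {n : ℕ} {q : ℕ × ℕ} : q ∈ ix n ↔ q.1 + q.2 ≤ n := by
  rw [ix, Finset.mem_filter, Finset.mem_product, Finset.mem_range, Finset.mem_range]
  omega

theorem sum_ix {M : Type*} [AddCommMonoid M] (n : ℕ) (f : ℕ × ℕ → M) :
    ∑ q ∈ ix n, f q = ∑ i ∈ Finset.range (n + 1), ∑ r ∈ Finset.range (n - i + 1), f (i, r) := by
  rw [ix, Finset.sum_filter, Finset.sum_product]
  refine Finset.sum_congr rfl fun i hi => ?_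
  rw [← Finset.sum_filter]
  refine Finset.sum_congr ?_ fun _ _ => rfl
  ext r
  rw [Finset.mem_filter, Finset.mem_range, Finset.mem_range]
  rw [Finset.mem_range] at hi
  omega

theorem proj_pow_mul {X : Sch k} {n : ℕ} {ξ : W.coh X} (P : LefProj W X n ξ) (i s i' r : ℕ)
    (hi' : i' ≤ n) {y : W.coh X} (hy : y ∈ PS W X n ξ i') :
    P.p i s (ξ ^ r * y) = if i = i' ∧ s = r ∧ r ≤ n - i' then y else 0 := by
  by_cases hr : r ≤ n - i'
  · rw [P.proj i s i' r y hi' hr hy]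
    simp only [hr, and_true]
  · rw [if_neg (fun h => hr h.2.2)]
    have e : ξ ^ r = ξ ^ (r - (n - i' + 1)) * ξ ^ (n - i' + 1) := by
      rw [← pow_add]; congr 1; omega
    rw [e, mul_assoc, hy.2, mul_zero, map_zero]

theorem proj_sum {X : Sch k} {n : ℕ} {ξ : W.coh X} (P : LefProj W X n ξ) (x : W.coh X) :
    x = ∑ q ∈ ix n, ξ ^ q.2 * P.p q.1 q.2 x := by
  rw [sum_ix]
  exact P.sum x

theorem proj_mul_zero {X : Sch k} {n : ℕ} {ξ : W.coh X} (P : LefProj W X n ξ) (i : ℕ)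
    (x : W.coh X) : P.p i 0 (ξ * x) = 0 := by
  conv_lhs => rw [proj_sum P x]
  rw [Finset.mul_sum, map_sum]
  refine Finset.sum_eq_zero fun q hq => ?_
  rw [mem_ix] at hq
  rw [← mul_assoc, ← pow_succ', proj_pow_mul P i 0 q.1 (q.2 + 1) (by omega) (P.mem _ _ _), if_neg]
  rintro ⟨_, h, _⟩
  omega

theorem proj_mul_succ {X : Sch k} {n : ℕ} {ξ : W.coh X} (P : LefProj W X n ξ) (i r : ℕ)
    (hr : i + (r + 1) ≤ n) (x : W.coh X) : P.p i (r + 1) (ξ * x) = P.p i r x := by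
  conv_lhs => rw [proj_sum P x]
  rw [Finset.mul_sum, map_sum, Finset.sum_eq_single (i, r)]
  · rw [← mul_assoc, ← pow_succ', proj_pow_mul P i (r + 1) i (r + 1) (by omega) (P.mem _ _ _),
      if_pos ⟨rfl, rfl, by omega⟩]
  · rintro ⟨i', r'⟩ hq hne
    rw [mem_ix] at hq
    simp only at hq ⊢
    rw [← mul_assoc, ← pow_succ', proj_pow_mul P i (r + 1) i' (r' + 1) (by omega) (P.mem _ _ _),
      if_neg]
    rintro ⟨rfl, h, _⟩
    exact hne (by rw [Nat.succ_injective h])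
  · intro h
    exact absurd (mem_ix.2 (by simp only; omega)) h

/-- the monomials in the two polarisations -/
noncomputable def mon (W : CohomologyData.{u, v, w} k K) {Y X : Sch k} (l : W.coh Y)
    (ξ : W.coh X) (r s : ℕ) : W.coh (Y ⊗ X) :=
  W.pull (fst Y X) (l ^ r) * W.pull (snd Y X) (ξ ^ s)

section

variable (hW : IsWeilCohomology W 𝒱) {Y X : Sch k} {d n : ℕ} (hY : 𝒱.mem Y d)
  (hX : 𝒱.mem X n) {l : W.coh Y} (hl : l ∈ W.alg Y 1) {ξ : W.coh X} (hξ : ξ ∈ W.alg X 1)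
  (PY : LefProj W Y d l) (PX : LefProj W X n ξ)

include hW hY hX hl hξ in
theorem mon_alg (r s : ℕ) : mon W l ξ r s ∈ W.alg (Y ⊗ X) (r + s) :=
  hW.mul_alg (𝒱.prod hY hX) (hW.pull_alg (𝒱.prod hY hX) hY _ (hW.pow_alg hY hl r))
    (hW.pull_alg (𝒱.prod hY hX) hX _ (hW.pow_alg hX hξ s))

include hW hY hX hl hξ in
theorem mon_gen (r s : ℕ) (y : W.coh Y) (x : W.coh X) :
    mon W l ξ r s * (W.pull (fst Y X) y * W.pull (snd Y X) x)
      = W.pull (fst Y X) (l ^ r * y) * W.pull (snd Y X) (ξ ^ s * x) := by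
  have h1 := hW.alg_comm (𝒱.prod hY hX)
    (hW.pull_alg (𝒱.prod hY hX) hX (snd Y X) (hW.pow_alg hX hξ s)) (W.pull (fst Y X) y)
  rw [mon, map_mul, map_mul, mul_assoc, ← mul_assoc (W.pull (snd Y X) (ξ ^ s)), h1, mul_assoc,
    mul_assoc]

include hW hY hX hl hξ in
theorem mon_mul (r s r' s' : ℕ) :
    mon W l ξ r s * mon W l ξ r' s' = mon W l ξ (r + r') (s + s') := by
  have h := mon_gen hW hY hX hl hξ r s (l ^ r') (ξ ^ s')
  rw [← pow_add, ← pow_add] at h
  exact h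

/-- the component of type `(i, r, i', s)` -/
noncomputable def cmp (i r i' s : ℕ) : W.coh (Y ⊗ X) →ₗ[K] W.coh (Y ⊗ X) :=
  ten hW hY hX (PY.p i r) (PX.p i' s)

theorem cmp_gen (i r i' s : ℕ) (y : W.coh Y) (x : W.coh X) :
    cmp hW hY hX PY PX i r i' s (W.pull (fst Y X) y * W.pull (snd Y X) x)
      = W.pull (fst Y X) (PY.p i r y) * W.pull (snd Y X) (PX.p i' s x) :=
  ten_gen hW hY hX _ _ y x

theorem cmp_mem (i r i' s : ℕ) (z : W.coh (Y ⊗ X)) :
    cmp hW hY hX PY PX i r i' s z ∈ tens W (PS W Y d l i) (PS W X n ξ i') := by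
  have hz : z ∈ tens W (⊤ : Submodule K (W.coh Y)) (⊤ : Submodule K (W.coh X)) := by
    rw [tens_top hW hY hX]; trivial
  refine Submodule.span_induction (p := fun z _ => cmp hW hY hX PY PX i r i' s z
    ∈ tens W (PS W Y d l i) (PS W X n ξ i')) ?_ ?_ ?_ ?_ hz
  · rintro _ ⟨y, _, x, _, rfl⟩
    rw [cmp_gen]
    exact mem_tens (PY.mem _ _ _) (PX.mem _ _ _)
  · rw [map_zero]; exact zero_mem _
  · intro a b _ _ ha hb
    rw [map_add]; exact add_mem ha hb
  · intro c a _ ha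
    rw [map_smul]; exact Submodule.smul_mem _ _ ha

include hl hξ in
theorem cmp_sum (z : W.coh (Y ⊗ X)) :
    z = ∑ q ∈ ix d, ∑ q' ∈ ix n,
      mon W l ξ q.2 q'.2 * cmp hW hY hX PY PX q.1 q.2 q'.1 q'.2 z := by
  have h := lin_ext hW hY hX (LinearMap.id : W.coh (Y ⊗ X) →ₗ[K] W.coh (Y ⊗ X))
    (∑ q ∈ ix d, ∑ q' ∈ ix n, LinearMap.mulLeft K (mon W l ξ q.2 q'.2) ∘ₗ
      cmp hW hY hX PY PX q.1 q.2 q'.1 q'.2) ?_
  · have h1 := congrArg (fun f => f z) h
    simpa only [LinearMap.id_apply, LinearMap.sum_apply, LinearMap.comp_apply,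
      LinearMap.mulLeft_apply] using h1
  · intro y x
    simp only [LinearMap.id_apply, LinearMap.sum_apply, LinearMap.comp_apply,
      LinearMap.mulLeft_apply]
    conv_lhs => rw [proj_sum PY y, proj_sum PX x]
    rw [map_sum, map_sum, Finset.sum_mul_sum]
    refine Finset.sum_congr rfl fun q _ => Finset.sum_congr rfl fun q' _ => ?_
    rw [cmp_gen, mon_gen hW hY hX hl hξ]

include hl hξ in
/-- the components of `l^r ξ^s w` -/
theorem cmp_str (i r i' s j r' j' s' : ℕ) (hj : j ≤ d) (hj' : j' ≤ n) {w : W.coh (Y ⊗ X)}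
    (hw : w ∈ tens W (PS W Y d l j) (PS W X n ξ j')) :
    cmp hW hY hX PY PX i r i' s (mon W l ξ r' s' * w)
      = if (i = j ∧ r = r' ∧ r' ≤ d - j) ∧ (i' = j' ∧ s = s' ∧ s' ≤ n - j') then w else 0 := by
  refine Submodule.span_induction (p := fun w _ =>
    cmp hW hY hX PY PX i r i' s (mon W l ξ r' s' * w)
      = if (i = j ∧ r = r' ∧ r' ≤ d - j) ∧ (i' = j' ∧ s = s' ∧ s' ≤ n - j') then w else 0)
    ?_ ?_ ?_ ?_ hw
  · rintro _ ⟨y, hy, x, hx, rfl⟩
    rw [mon_gen hW hY hX hl hξ, cmp_gen, proj_pow_mul PY i r j r' hj hy,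
      proj_pow_mul PX i' s j' s' hj' hx]
    by_cases h1 : i = j ∧ r = r' ∧ r' ≤ d - j
    · by_cases h2 : i' = j' ∧ s = s' ∧ s' ≤ n - j'
      · rw [if_pos h1, if_pos h2, if_pos ⟨h1, h2⟩]
      · have h3 : ¬ ((i = j ∧ r = r' ∧ r' ≤ d - j) ∧ (i' = j' ∧ s = s' ∧ s' ≤ n - j')) :=
          fun h => h2 h.2
        rw [if_neg h3, if_neg h2, map_zero (W.pull (snd Y X)), mul_zero]
    · have h3 : ¬ ((i = j ∧ r = r' ∧ r' ≤ d - j) ∧ (i' = j' ∧ s = s' ∧ s' ≤ n - j')) :=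
        fun h => h1 h.1
      rw [if_neg h3, if_neg h1, map_zero (W.pull (fst Y X)), zero_mul]
  · rw [mul_zero, map_zero, ite_self]
  · intro a b _ _ ha hb
    rw [mul_add, map_add, ha, hb]
    split_ifs <;> simp
  · intro c a _ ha
    rw [mul_smul_comm, map_smul, ha]
    split_ifs <;> simp

include hl hξ in
theorem cmp_lam (i r i' s : ℕ) (z : W.coh (Y ⊗ X)) (hr : i + r ≤ d) (hs : i' + s ≤ n) :
    cmp hW hY hX PY PX i r i' s (lam W l ξ * z)
      = (if r = 0 then 0 else cmp hW hY hX PY PX i (r - 1) i' s z)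
        + (if s = 0 then 0 else cmp hW hY hX PY PX i r i' (s - 1) z) := by
  have h := lin_ext hW hY hX
    (cmp hW hY hX PY PX i r i' s ∘ₗ LinearMap.mulLeft K (lam W l ξ))
    ((if r = 0 then 0 else cmp hW hY hX PY PX i (r - 1) i' s)
      + (if s = 0 then 0 else cmp hW hY hX PY PX i r i' (s - 1))) ?_
  · have h1 := congrArg (fun f => f z) h
    simp only [LinearMap.comp_apply, LinearMap.mulLeft_apply, LinearMap.add_apply] at h1
    rw [h1]
    congr 1 <;> split_ifs <;> simp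
  · intro y x
    simp only [LinearMap.comp_apply, LinearMap.mulLeft_apply, LinearMap.add_apply]
    rw [lam_mul hW hY hX hl hξ, map_add, cmp_gen, cmp_gen]
    congr 1
    · rcases Nat.eq_zero_or_pos r with h0 | h0
      · subst h0
        rw [proj_mul_zero PY, map_zero, zero_mul, if_pos rfl, LinearMap.zero_apply]
      · obtain ⟨r', rfl⟩ : ∃ r', r = r' + 1 := ⟨r - 1, by omega⟩
        rw [proj_mul_succ PY i r' hr, if_neg (Nat.succ_ne_zero r'), Nat.add_sub_cancel, cmp_gen]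
    · rcases Nat.eq_zero_or_pos s with h0 | h0
      · subst h0
        rw [proj_mul_zero PX, map_zero, mul_zero, if_pos rfl, LinearMap.zero_apply]
      · obtain ⟨s', rfl⟩ : ∃ s', s = s' + 1 := ⟨s - 1, by omega⟩
        rw [proj_mul_succ PX i' s' hs, if_neg (Nat.succ_ne_zero s'), Nat.add_sub_cancel, cmp_gen]

include hW hY hX in
theorem tens_gr {i i' : ℕ} {w : W.coh (Y ⊗ X)}
    (hw : w ∈ tens W (PS W Y d l i) (PS W X n ξ i')) : w ∈ W.gr (Y ⊗ X) (i + i') := by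
  refine Submodule.span_induction (p := fun w _ => w ∈ W.gr (Y ⊗ X) (i + i')) ?_ ?_ ?_ ?_ hw
  · rintro _ ⟨y, hy, x, hx, rfl⟩
    exact hW.mul_gr (𝒱.prod hY hX) (hW.pull_gr (𝒱.prod hY hX) hY _ hy.1)
      (hW.pull_gr (𝒱.prod hY hX) hX _ hx.1)
  · exact zero_mem _
  · intro a b _ _ ha hb
    exact add_mem ha hb
  · intro c a _ ha
    exact Submodule.smul_mem _ _ ha

include hl hξ in
/-- the components of a homogeneous element -/
theorem cmp_deg {m : ℕ} {z : W.coh (Y ⊗ X)} (hz : z ∈ W.gr (Y ⊗ X) m) (i r i' s : ℕ)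
    (hr : i + r ≤ d) (hs : i' + s ≤ n) (hm : i + i' + 2 * (r + s) ≠ m) :
    cmp hW hY hX PY PX i r i' s z = 0 := by
  have hYX := 𝒱.prod hY hX
  obtain ⟨π, h1, h2⟩ := exists_proj hW hYX m
  have hT : ∀ q q' : ℕ × ℕ, mon W l ξ q.2 q'.2 * cmp hW hY hX PY PX q.1 q.2 q'.1 q'.2 z
      ∈ W.gr (Y ⊗ X) (q.1 + q'.1 + 2 * (q.2 + q'.2)) := by
    intro q q'
    have h3 := hW.mul_gr hYX (hW.alg_gr hYX (mon_alg hW hY hX hl hξ q.2 q'.2))
      (tens_gr hW hY hX (cmp_mem hW hY hX PY PX q.1 q.2 q'.1 q'.2 z))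
    rwa [add_comm] at h3
  have e : z = ∑ q ∈ ix d, ∑ q' ∈ ix n, if q.1 + q'.1 + 2 * (q.2 + q'.2) = m then
      mon W l ξ q.2 q'.2 * cmp hW hY hX PY PX q.1 q.2 q'.1 q'.2 z else 0 := by
    conv_lhs => rw [← h1 z hz, cmp_sum hW hY hX hl hξ PY PX z, map_sum]
    refine Finset.sum_congr rfl fun q _ => ?_
    rw [map_sum]
    refine Finset.sum_congr rfl fun q' _ => ?_
    split_ifs with h3
    · exact h1 _ (h3 ▸ hT q q')
    · exact h2 _ h3 _ (hT q q')
  rw [e, map_sum]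
  refine Finset.sum_eq_zero fun q hq => ?_
  rw [map_sum]
  refine Finset.sum_eq_zero fun q' hq' => ?_
  rw [mem_ix] at hq hq'
  split_ifs with h3
  · rw [cmp_str hW hY hX hl hξ PY PX i r i' s q.1 q.2 q'.1 q'.2 (by omega) (by omega)
      (cmp_mem hW hY hX PY PX _ _ _ _ z), if_neg]
    rintro ⟨⟨rfl, rfl, _⟩, rfl, rfl, _⟩
    exact hm h3
  · rw [map_zero]

include hl hξ in
/-- the components of an algebraic class -/
theorem cmp_alg {j : ℕ} {z : W.coh (Y ⊗ X)} (hz : z ∈ W.alg (Y ⊗ X) j) (i r i' s : ℕ)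
    (hr : i + r ≤ d) (hs : i' + s ≤ n) :
    (∀ q, j = q + r + s → cmp hW hY hX PY PX i r i' s z ∈ W.alg (Y ⊗ X) q)
      ∧ (j < r + s → cmp hW hY hX PY PX i r i' s z = 0) := by
  have hYX := 𝒱.prod hY hX
  have hd := cmp_deg hW hY hX hl hξ PY PX (hW.alg_gr hYX hz) i r i' s hr hs
  refine ⟨fun q hq => ?_, fun h => hd (by omega)⟩
  by_cases h1 : i + i' = 2 * q
  · refine tot_alg hW hYX (ten_tot hW hY hX (PY.alg i r) (PX.alg i' s)
      (alg_le_tot hW _ j hz)) ?_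
    have h2 := tens_gr hW hY hX (cmp_mem hW hY hX PY PX i r i' s z)
    rwa [h1] at h2
  · rw [hd (by omega)]; exact zero_mem _

end

section

variable (hW : IsWeilCohomology W 𝒱) {Y X : Sch k} {d n : ℕ} (hY : 𝒱.mem Y d)
  (hX : 𝒱.mem X n) {l : W.coh Y} (hl : l ∈ W.alg Y 1) {ξ : W.coh X} (hξ : ξ ∈ W.alg X 1)
  (PY : LefProj W Y d l) (PX : LefProj W X n ξ)

include hW hY hX hl hξ in
theorem tens_orth {i i' j j' : ℕ} (hi : i ≤ d) (hj : j ≤ d) (hi' : i' ≤ n) (hj' : j' ≤ n)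
    {w w' : W.coh (Y ⊗ X)} (hw : w ∈ tens W (PS W Y d l i) (PS W X n ξ i'))
    (hw' : w' ∈ tens W (PS W Y d l j) (PS W X n ξ j')) (R S : ℕ)
    (h : (i ≠ j ∨ R + i ≠ d) ∨ (i' ≠ j' ∨ S + i' ≠ n)) :
    W.tr (Y ⊗ X) (mon W l ξ R S * (w * w')) = 0 := by
  have hYX := 𝒱.prod hY hX
  refine Submodule.span_induction (p := fun w _ =>
    W.tr (Y ⊗ X) (mon W l ξ R S * (w * w')) = 0) ?_ ?_ ?_ ?_ hw
  · rintro _ ⟨y, hy, x, hx, rfl⟩
    refine Submodule.span_induction (p := fun w' _ => W.tr (Y ⊗ X)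
      (mon W l ξ R S * (W.pull (fst Y X) y * W.pull (snd Y X) x * w')) = 0) ?_ ?_ ?_ ?_ hw'
    · rintro _ ⟨y', hy', x', hx', rfl⟩
      have h1 := hW.comm_gr hYX (hW.pull_gr hYX hX (snd Y X) hx.1)
        (hW.pull_gr hYX hY (fst Y X) hy'.1)
      have e : W.pull (fst Y X) y * W.pull (snd Y X) x
          * (W.pull (fst Y X) y' * W.pull (snd Y X) x')
          = (-1 : K) ^ (i' * j) • (W.pull (fst Y X) (y * y') * W.pull (snd Y X) (x * x')) := by
        rw [mul_assoc, ← mul_assoc (W.pull (snd Y X) x), h1, smul_mul_assoc, mul_smul_comm,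
          map_mul, map_mul, mul_assoc, mul_assoc]
      rw [e, mul_smul_comm, map_smul, mon_gen hW hY hX hl hξ, hW.kunneth_tr hY hX]
      rcases h with h | h
      · rw [prim_orth hW hY hl hi hj hy hy' R h, zero_mul, smul_zero]
      · rw [prim_orth hW hX hξ hi' hj' hx hx' S h, mul_zero, smul_zero]
    · rw [mul_zero, mul_zero, map_zero]
    · intro a b _ _ ha hb
      rw [mul_add, mul_add, map_add, ha, hb, add_zero]
    · intro c a _ ha
      rw [mul_smul_comm, mul_smul_comm, map_smul, ha, smul_zero]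
  · rw [zero_mul, mul_zero, map_zero]
  · intro a b _ _ ha hb
    rw [add_mul, mul_add, map_add, ha, hb, add_zero]
  · intro c a _ ha
    rw [smul_mul_assoc, mul_smul_comm, map_smul, ha, smul_zero]

/-- the Lefschetz datum of a primitive piece -/
noncomputable def SD (i i' : ℕ) : LData K (W.coh (Y ⊗ X)) where
  L := 0
  B := (LinearMap.mul K (W.coh (Y ⊗ X))).compr₂
    (W.tr (Y ⊗ X) ∘ₗ LinearMap.mulLeft K (mon W l ξ (d - i) (n - i')))
  gr j := W.alg (Y ⊗ X) j ⊓ (tens W (PS W Y d l i) (PS W X n ξ i')).toAddSubgroup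
  gr_smul := fun _ q _ hx => ⟨W.alg_smul q hx.1, Submodule.smul_mem _ _ hx.2⟩
  gr_L := fun _ _ _ => zero_mem _
  sym := fun _ _ x y hx _ => by
    change W.tr (Y ⊗ X) (mon W l ξ (d - i) (n - i') * (x * y))
      = W.tr (Y ⊗ X) (mon W l ξ (d - i) (n - i') * (y * x))
    rw [hW.alg_comm (𝒱.prod hY hX) hx.1]
  adj := fun x y => by simp

theorem SD_B (i i' : ℕ) (x y : W.coh (Y ⊗ X)) :
    (SD hW hY hX (l := l) (ξ := ξ) i i').B x y
      = W.tr (Y ⊗ X) (mon W l ξ (d - i) (n - i') * (x * y)) := rfl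

theorem SD_HR (i i' : ℕ) (hpos : PosOn W Y X d n l ξ i i' (PS W Y d l i) (PS W X n ξ i')) :
    (SD hW hY hX (l := l) (ξ := ξ) i i').HR (i + i') := by
  intro j hj x hx _ hne
  rcases eq_or_ne (i + i') (2 * j) with h | h
  · have h1 := hpos j h x hx.1 hx.2 hne
    rw [h, Nat.sub_self, pow_zero, Module.End.one_apply, SD_B]
    exact h1
  · exact (hne (gr_unique hW (𝒱.prod hY hX) h (hW.alg_gr (𝒱.prod hY hX) hx.1)
      (tens_gr hW hY hX hx.2))).elim

/-- the components of type `(i, i')` -/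
noncomputable def Fc (i i' : ℕ) (z : W.coh (Y ⊗ X)) :
    Fin (n - i' + 1) → Fin (d - i + 1) → W.coh (Y ⊗ X) :=
  fun s r => cmp hW hY hX PY PX i r i' s z

/-- the Lefschetz datum of the piece of type `(i, i')` -/
noncomputable abbrev TD (i i' : ℕ) :
    LData K (Fin (n - i' + 1) → Fin (d - i + 1) → W.coh (Y ⊗ X)) :=
  ((SD hW hY hX (l := l) (ξ := ξ) i i').Str (d - i)).Str (n - i')

theorem TD_HR (i i' : ℕ) (hi : i ≤ d) (hi' : i' ≤ n)
    (hpos : PosOn W Y X d n l ξ i i' (PS W Y d l i) (PS W X n ξ i')) :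
    (TD hW hY hX (l := l) (ξ := ξ) i i').HR (d + n) := by
  have h := ((SD_HR hW hY hX i i' hpos).Str (d - i)).Str (n - i')
  have e : i + i' + (d - i) + (n - i') = d + n := by omega
  rwa [e] at h

include hl hξ in
theorem Fc_lam (i i' : ℕ) (hi : i ≤ d) (hi' : i' ≤ n) (z : W.coh (Y ⊗ X)) :
    Fc hW hY hX PY PX i i' (lam W l ξ * z)
      = (TD hW hY hX (l := l) (ξ := ξ) i i').L (Fc hW hY hX PY PX i i' z) := by
  funext s r
  rw [LData.Str_L, Pi.add_apply, LData.Str_L]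
  have h0 : (SD hW hY hX (l := l) (ξ := ξ) i i').L (Fc hW hY hX PY PX i i' z s r) = 0 := rfl
  rw [h0, zero_add]
  have hr := r.isLt
  have hs := s.isLt
  change cmp hW hY hX PY PX i r i' s (lam W l ξ * z) = _
  rw [cmp_lam hW hY hX hl hξ PY PX i r i' s z (by omega) (by omega)]
  congr 1
  · refine Fin.cases ?_ (fun c => ?_) r
    · rw [LData.shift_zero, if_pos (Fin.val_zero _)]
    · rw [LData.shift_succ, if_neg (by rw [Fin.val_succ]; exact Nat.succ_ne_zero _)]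
      rfl
  · refine Fin.cases ?_ (fun c => ?_) s
    · rw [LData.shift_zero, if_pos (Fin.val_zero _)]
      rfl
    · rw [LData.shift_succ, if_neg (by rw [Fin.val_succ]; exact Nat.succ_ne_zero _)]
      rfl

include hl hξ in
theorem Fc_pow (i i' : ℕ) (hi : i ≤ d) (hi' : i' ≤ n) (N : ℕ) (z : W.coh (Y ⊗ X)) :
    Fc hW hY hX PY PX i i' (lam W l ξ ^ N * z)
      = ((TD hW hY hX (l := l) (ξ := ξ) i i').L ^ N) (Fc hW hY hX PY PX i i' z) := by
  induction N with
  | zero => rw [pow_zero, one_mul, pow_zero, Module.End.one_apply]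
  | succ N ih =>
    rw [pow_succ', mul_assoc, Fc_lam hW hY hX hl hξ PY PX i i' hi hi', ih, pow_succ',
      Module.End.mul_apply]

include hl hξ in
theorem Fc_mem (i i' : ℕ) (hi : i ≤ d) (hi' : i' ≤ n) {j : ℕ} {z : W.coh (Y ⊗ X)}
    (hz : z ∈ W.alg (Y ⊗ X) j) :
    Fc hW hY hX PY PX i i' z ∈ (TD hW hY hX (l := l) (ξ := ξ) i i').gr j := by
  intro s
  have hs := s.isLt
  refine ⟨fun t ht r => ?_, fun h => ?_⟩
  · have hr := r.isLt
    have h1 := cmp_alg hW hY hX hl hξ PY PX hz i r i' s (by omega) (by omega)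
    exact ⟨fun q hq => ⟨h1.1 q (by omega), cmp_mem hW hY hX PY PX i r i' s z⟩,
      fun h => h1.2 (by omega)⟩
  · funext r
    have hr := r.isLt
    exact (cmp_alg hW hY hX hl hξ PY PX hz i r i' s (by omega) (by omega)).2 (by omega)

include hl hξ in
theorem tr_cmp (z z' : W.coh (Y ⊗ X)) :
    W.tr (Y ⊗ X) (z * z') = ∑ i ∈ Finset.range (d + 1), ∑ i' ∈ Finset.range (n + 1),
      (TD hW hY hX (l := l) (ξ := ξ) i i').B (Fc hW hY hX PY PX i i' z)
        (Fc hW hY hX PY PX i i' z') := by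
  have hYX := 𝒱.prod hY hX
  have h1 : W.tr (Y ⊗ X) (z * z') = ∑ q ∈ ix d, ∑ q' ∈ ix n,
      W.tr (Y ⊗ X) (mon W l ξ (d - q.1) (n - q'.1) *
        (cmp hW hY hX PY PX q.1 q.2 q'.1 q'.2 z
          * cmp hW hY hX PY PX q.1 (d - q.1 - q.2) q'.1 (n - q'.1 - q'.2) z')) := by
    have e1 := cmp_sum hW hY hX hl hξ PY PX z
    have e2 := cmp_sum hW hY hX hl hξ PY PX z'
    have e3 : z * z' = (∑ q ∈ ix d, ∑ q' ∈ ix n,
        mon W l ξ q.2 q'.2 * cmp hW hY hX PY PX q.1 q.2 q'.1 q'.2 z)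
        * ∑ q ∈ ix d, ∑ q' ∈ ix n,
          mon W l ξ q.2 q'.2 * cmp hW hY hX PY PX q.1 q.2 q'.1 q'.2 z' := by
      rw [← e1, ← e2]
    have e4 : ∀ (q q' p p' : ℕ × ℕ),
        (mon W l ξ q.2 q'.2 * cmp hW hY hX PY PX q.1 q.2 q'.1 q'.2 z)
        * (mon W l ξ p.2 p'.2 * cmp hW hY hX PY PX p.1 p.2 p'.1 p'.2 z')
        = mon W l ξ (q.2 + p.2) (q'.2 + p'.2) * (cmp hW hY hX PY PX q.1 q.2 q'.1 q'.2 z
          * cmp hW hY hX PY PX p.1 p.2 p'.1 p'.2 z') := by
      intro q q' p p'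
      have hc := hW.alg_comm hYX (mon_alg hW hY hX hl hξ p.2 p'.2)
        (cmp hW hY hX PY PX q.1 q.2 q'.1 q'.2 z)
      rw [mul_assoc, ← mul_assoc (cmp hW hY hX PY PX q.1 q.2 q'.1 q'.2 z), ← hc, mul_assoc,
        ← mul_assoc, mon_mul hW hY hX hl hξ]
    rw [e3, Finset.sum_mul, map_sum]
    refine Finset.sum_congr rfl fun q hq => ?_
    rw [Finset.sum_mul, map_sum]
    refine Finset.sum_congr rfl fun q' hq' => ?_
    rw [mem_ix] at hq hq'
    rw [Finset.mul_sum, map_sum, Finset.sum_eq_single (q.1, d - q.1 - q.2)]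
    · rw [Finset.mul_sum, map_sum, Finset.sum_eq_single (q'.1, n - q'.1 - q'.2)]
      · rw [e4]
        simp only
        congr 3 <;> omega
      · rintro ⟨a', b'⟩ hp' hne
        rw [mem_ix] at hp'
        simp only at hp'
        rw [e4]
        refine tens_orth hW hY hX hl hξ (by omega) (by simp only; omega) (by omega)
          (by simp only; omega) (cmp_mem hW hY hX PY PX _ _ _ _ _)
          (cmp_mem hW hY hX PY PX _ _ _ _ _) _ _ (Or.inr ?_)
        simp only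
        by_cases ha : q'.1 = a'
        · right
          intro hb
          apply hne
          rw [Prod.mk.injEq]
          exact ⟨ha.symm, by omega⟩
        · left; exact ha
      · intro h
        exact absurd (mem_ix.2 (by simp only; omega)) h
    · rintro ⟨a, b⟩ hp hne
      rw [mem_ix] at hp
      simp only at hp
      rw [Finset.mul_sum, map_sum]
      refine Finset.sum_eq_zero fun p' hp' => ?_
      rw [mem_ix] at hp'
      rw [e4]
      refine tens_orth hW hY hX hl hξ (by omega) (by simp only; omega) (by omega)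
        (by omega) (cmp_mem hW hY hX PY PX _ _ _ _ _)
        (cmp_mem hW hY hX PY PX _ _ _ _ _) _ _ (Or.inl ?_)
      simp only
      by_cases ha : q.1 = a
      · right
        intro hb
        apply hne
        rw [Prod.mk.injEq]
        exact ⟨ha.symm, by omega⟩
      · left; exact ha
    · intro h
      exact absurd (mem_ix.2 (by simp only; omega)) h
  rw [h1, sum_ix]
  refine Finset.sum_congr rfl fun i _ => ?_
  simp only [sum_ix]
  rw [Finset.sum_comm]
  refine Finset.sum_congr rfl fun i' _ => ?_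
  rw [Finset.sum_comm, Finset.sum_range, LData.Str_B]
  refine Finset.sum_congr rfl fun s _ => ?_
  rw [Finset.sum_range, LData.Str_B]
  refine Finset.sum_congr rfl fun r _ => ?_
  rw [SD_B]
  have hr := r.isLt
  have hs := s.isLt
  have er : ((r.rev : Fin (d - i + 1)) : ℕ) = d - i - r := by rw [Fin.val_rev]; omega
  have es : ((s.rev : Fin (n - i' + 1)) : ℕ) = n - i' - s := by rw [Fin.val_rev]; omega
  change _ = W.tr (Y ⊗ X) (mon W l ξ (d - i) (n - i') * (cmp hW hY hX PY PX i r i' s z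
    * cmp hW hY hX PY PX i (r.rev : Fin (d - i + 1)) i' (s.rev : Fin (n - i' + 1)) z'))
  rw [er, es]

end

end Crit

open Crit in
/-- positivity on all primitive pieces implies `Q1` for the product -/
theorem crit (hW : IsWeilCohomology W 𝒱) {Y X : Sch k} {d n : ℕ} (hY : 𝒱.mem Y d)
    (hX : 𝒱.mem X n) {l : W.coh Y} (hl : l ∈ W.alg Y 1) {ξ : W.coh X} (hξ : ξ ∈ W.alg X 1)
    (PY : LefProj W Y d l) (PX : LefProj W X n ξ)
    (hpos : ∀ i i', i ≤ d → i' ≤ n →
      PosOn W Y X d n l ξ i i' (PS W Y d l i) (PS W X n ξ i')) :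
    HodgeType W (Y ⊗ X) (d + n) (lam W l ξ) := by
  intro j hj z hz hprim hne
  have hYX := 𝒱.prod hY hX
  obtain ⟨N, hN⟩ : ∃ N, d + n - 2 * j = N := ⟨_, rfl⟩
  rw [hN] at hprim ⊢
  have hcomm := hW.alg_comm hYX (hW.pow_alg hYX (lam_alg hW hY hX hl hξ) N) z
  have e1 : lam W l ξ ^ N * (z * z) = z * (lam W l ξ ^ N * z) := by
    rw [← mul_assoc, hcomm, mul_assoc, hcomm]
  rw [e1, tr_cmp hW hY hX hl hξ PY PX, ← Finset.sum_product', Finset.mul_sum]
  have key : ∀ i i', i ≤ d → i' ≤ n → Fc hW hY hX PY PX i i' z ≠ 0 →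
      RatPos ((-1) ^ j * (TD hW hY hX (l := l) (ξ := ξ) i i').B (Fc hW hY hX PY PX i i' z)
        (Fc hW hY hX PY PX i i' (lam W l ξ ^ N * z))) := by
    intro i i' hi hi' h0
    have h1 := TD_HR hW hY hX i i' hi hi' (hpos i i' hi hi') j hj
      (Fc hW hY hX PY PX i i' z) (Fc_mem hW hY hX hl hξ PY PX i i' hi hi' hz) (by
        rw [hN, ← Fc_pow hW hY hX hl hξ PY PX i i' hi hi', hprim]
        funext s r
        exact map_zero _) h0
    rw [hN, ← Fc_pow hW hY hX hl hξ PY PX i i' hi hi'] at h1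
    exact h1
  refine RatPos.sum _ _ ?_ ?_
  · rintro ⟨i, i'⟩ hq
    rw [Finset.mem_product, Finset.mem_range, Finset.mem_range] at hq
    by_cases h0 : Fc hW hY hX PY PX i i' z = 0
    · left
      simp only [h0, map_zero, LinearMap.zero_apply, mul_zero]
    · right
      exact key i i' (by simp only at hq; omega) (by simp only at hq; omega) h0
  · by_contra hcon
    apply hne
    rw [cmp_sum hW hY hX hl hξ PY PX z]
    refine Finset.sum_eq_zero fun q hq => Finset.sum_eq_zero fun q' hq' => ?_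
    rw [mem_ix] at hq hq'
    by_cases h0 : Fc hW hY hX PY PX q.1 q'.1 z = 0
    · have h1 := congrFun (congrFun h0 ⟨q'.2, by omega⟩) ⟨q.2, by omega⟩
      change cmp hW hY hX PY PX q.1 q.2 q'.1 q'.2 z = 0 at h1
      rw [h1, mul_zero]
    · exact (hcon ⟨(q.1, q'.1), Finset.mem_product.2 ⟨Finset.mem_range.2 (by simp only; omega),
        Finset.mem_range.2 (by simp only; omega)⟩, key q.1 q'.1 (by omega) (by omega) h0⟩).elim

end Pool.Agent.Lib.MP_361a6f_ag.SQ
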