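import Pool.Agent.Lib.MP_361a6f_ag.SQ.LefDec
import Pool.Agent.Lib.MP_361a6f_ag.SQ.Op

/-!
# Algebraic projectors of the Lefschetz decomposition
-/

open CategoryTheory AlgebraicGeometry MonoidalCategory CartesianMonoidalCategory

universe u v w

set_option linter.unusedSectionVars false

namespace Pool.Agent.Lib.MP_361a6f_ag.SQ

open Pool.Agent.Lib.MP_361a6f_ag.H3

namespace LPr

/-- the eigenvalue of `D = Λ L + M L Λ` on `L^r P^i`, with `M = (n+1)^2` -/
def ev (n i r : ℕ) : ℕ := (r + 1) * (n - i - r) + (n + 1) ^ 2 * (r * (n - i - r + 1))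

theorem ev_inj {n i r i' r' : ℕ} (hi : i ≤ n) (hr : r ≤ n - i) (hi' : i' ≤ n) (hr' : r' ≤ n - i')
    (h : ev n i r = ev n i' r') : i = i' ∧ r = r' := by
  obtain ⟨s, hs⟩ : ∃ s, n - i - r = s := ⟨_, rfl⟩
  obtain ⟨s', hs'⟩ : ∃ s', n - i' - r' = s' := ⟨_, rfl⟩
  simp only [ev, hs, hs'] at h
  have b1 : (r + 1) * s < (n + 1) ^ 2 := by
    have h1 : r + 1 ≤ n + 1 := by omega
    have h2 : s < n + 1 := by omega
    calc (r + 1) * s ≤ (n + 1) * s := Nat.mul_le_mul_right _ h1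
      _ < (n + 1) * (n + 1) := Nat.mul_lt_mul_of_pos_left h2 (by omega)
      _ = (n + 1) ^ 2 := by ring
  have b2 : (r' + 1) * s' < (n + 1) ^ 2 := by
    have h1 : r' + 1 ≤ n + 1 := by omega
    have h2 : s' < n + 1 := by omega
    calc (r' + 1) * s' ≤ (n + 1) * s' := Nat.mul_le_mul_right _ h1
      _ < (n + 1) * (n + 1) := Nat.mul_lt_mul_of_pos_left h2 (by omega)
      _ = (n + 1) ^ 2 := by ring
  have e1 : (r + 1) * s = (r' + 1) * s' := by
    have := congrArg (· % (n + 1) ^ 2) h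
    simpa [Nat.add_mul_mod_self_left, Nat.mod_eq_of_lt b1, Nat.mod_eq_of_lt b2] using this
  have e2 : r * (s + 1) = r' * (s' + 1) := by
    rw [e1] at h
    exact Nat.eq_of_mul_eq_mul_left (by positivity) (Nat.add_left_cancel h)
  have e3 : r = r' := by
    zify at e1 e2 ⊢
    have e4 : ((r' : ℤ) - r) * ((r' : ℤ) + s + 1) = 0 := by
      have h4 : (s' : ℤ) = s - r + r' := by linarith
      rw [h4] at e1 e2
      linarith
    rcases mul_eq_zero.mp e4 with h1 | h1
    · omega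
    · omega
  subst e3
  have e4 : s = s' := Nat.eq_of_mul_eq_mul_left (by omega) e1
  exact ⟨by omega, rfl⟩

section

variable {K : Type v} [Field K] [CharZero K] {V : Type w} [AddCommGroup V] [Module K V]

/-- a class of operators closed under the algebra operations (with rational scalars) -/
structure Closed (C : (V →ₗ[K] V) → Prop) : Prop where
  zero : C 0
  add : ∀ {u u'}, C u → C u' → C (u + u')
  smul : ∀ (q : ℚ) {u}, C u → C ((q : K) • u)
  comp : ∀ {u u'}, C u → C u' → C (u ∘ₗ u')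
  id : C LinearMap.id

/-- Lagrange projectors -/
theorem lagr {C : (V →ₗ[K] V) → Prop} (hC : Closed C) {D : V →ₗ[K] V} (hD : C D) (e₀ : ℕ)
    (S : Finset ℕ) : e₀ ∉ S → ∃ u : V →ₗ[K] V, C u ∧ (∀ v, D v = (e₀ : K) • v → u v = v) ∧
      ∀ e ∈ S, ∀ v, D v = (e : K) • v → u v = 0 := by
  induction S using Finset.induction_on with
  | empty => exact fun _ => ⟨LinearMap.id, hC.id, fun v _ => rfl, by simp⟩
  | insert e S heS ih =>
    intro h
    rw [Finset.mem_insert, not_or] at h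
    obtain ⟨u, hu, h1, h2⟩ := ih h.2
    have hne : ((e₀ : K) - e) ≠ 0 := by
      rw [sub_ne_zero]
      exact_mod_cast h.1
    set c : ℚ := ((e₀ : ℚ) - e)⁻¹ with hc
    have hcK : ((c : ℚ) : K) = ((e₀ : K) - e)⁻¹ := by rw [hc]; push_cast; rfl
    refine ⟨u ∘ₗ ((c : K) • (D + (((-e : ℤ) : ℚ) : K) • LinearMap.id)), ?_, ?_, ?_⟩
    · exact hC.comp hu (hC.smul c (hC.add hD (hC.smul _ hC.id)))
    · intro v hv
      have e1 : ((c : K) • (D + (((-e : ℤ) : ℚ) : K) • LinearMap.id) : V →ₗ[K] V) v = v := by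
        simp only [LinearMap.smul_apply, LinearMap.add_apply, LinearMap.id_apply, hv]
        rw [← add_smul, smul_smul, hcK]
        have : ((e₀ : K) - e)⁻¹ * ((e₀ : K) + (((-e : ℤ) : ℚ) : K)) = 1 := by
          push_cast
          rw [← sub_eq_add_neg]
          exact inv_mul_cancel₀ hne
        rw [this, one_smul]
      rw [LinearMap.comp_apply, e1, h1 v hv]
    · intro e' he' v hv
      have e1 : ((c : K) • (D + (((-e : ℤ) : ℚ) : K) • LinearMap.id) : V →ₗ[K] V) v
          = ((c : K) * ((e' : K) - e)) • v := by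
        simp only [LinearMap.smul_apply, LinearMap.add_apply, LinearMap.id_apply, hv]
        rw [← add_smul, smul_smul]
        congr 2
        push_cast
        ring
      rw [LinearMap.comp_apply, e1, map_smul]
      rcases Finset.mem_insert.mp he' with rfl | he'
      · rw [sub_self, mul_zero, zero_smul]
      · rw [h2 e' he' v hv, smul_zero]

variable {L Λ : V →ₗ[K] V} {P : ℕ → Submodule K V} {n : ℕ}

/-- lowering back to the primitive part -/
theorem lower {C : (V →ₗ[K] V) → Prop} (hC : Closed C) (hΛC : C Λ)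
    (hΛ : ∀ i r, ∀ x ∈ P i, i ≤ n → r ≤ n - i →
      Λ ((L ^ r) x) = ((r * (n - i - r + 1) : ℕ) : K) • (L ^ (r - 1)) x) {i : ℕ} (hi : i ≤ n)
    (r : ℕ) : r ≤ n - i → ∃ t : V →ₗ[K] V, C t ∧ ∀ x ∈ P i, t ((L ^ r) x) = x := by
  induction r with
  | zero => exact fun _ => ⟨LinearMap.id, hC.id, fun x _ => by simp⟩
  | succ r ih =>
    intro hr
    obtain ⟨t, ht, h1⟩ := ih (by omega)
    set a : ℕ := (r + 1) * (n - i - (r + 1) + 1) with ha
    have ha0 : ((a : ℕ) : K) ≠ 0 := by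
      rw [Nat.cast_ne_zero, ha]
      positivity
    refine ⟨t ∘ₗ ((((a : ℚ)⁻¹ : ℚ) : K) • Λ), hC.comp ht (hC.smul _ hΛC), fun x hx => ?_⟩
    rw [LinearMap.comp_apply, LinearMap.smul_apply, hΛ i (r + 1) x hx hi hr, smul_smul]
    have e1 : ((((a : ℚ)⁻¹ : ℚ) : K)) * (((r + 1) * (n - i - (r + 1) + 1) : ℕ) : K) = 1 := by
      rw [← ha]
      push_cast
      exact inv_mul_cancel₀ ha0
    rw [e1, one_smul, Nat.add_sub_cancel, h1 x hx]

/-- the operator `D` -/
theorem D_apply (hL : ∀ i, ∀ x ∈ P i, i ≤ n → (L ^ (n - i + 1)) x = 0)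
    (hΛ : ∀ i r, ∀ x ∈ P i, i ≤ n → r ≤ n - i →
      Λ ((L ^ r) x) = ((r * (n - i - r + 1) : ℕ) : K) • (L ^ (r - 1)) x) {i r : ℕ} {x : V}
    (hx : x ∈ P i) (hi : i ≤ n) (hr : r ≤ n - i) :
    (Λ ∘ₗ L + ((((n + 1) ^ 2 : ℕ) : ℚ) : K) • (L ∘ₗ Λ)) ((L ^ r) x)
      = (ev n i r : K) • (L ^ r) x := by
  have e1 : L ((L ^ r) x) = (L ^ (r + 1)) x := by
    rw [pow_succ']; rfl
  have e2 : Λ (L ((L ^ r) x)) = (((r + 1) * (n - i - r) : ℕ) : K) • (L ^ r) x := by
    rw [e1]
    rcases hr.lt_or_eq with h | h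
    · rw [hΛ i (r + 1) x hx hi h, Nat.add_sub_cancel]
      congr 3
      omega
    · subst h
      rw [hL i x hx hi, map_zero]
      simp
  have e3 : L (Λ ((L ^ r) x)) = ((r * (n - i - r + 1) : ℕ) : K) • (L ^ r) x := by
    rw [hΛ i r x hx hi hr, map_smul]
    rcases Nat.eq_zero_or_pos r with h | h
    · subst h
      simp
    · congr 1
      obtain ⟨m, rfl⟩ : ∃ m, r = m + 1 := ⟨r - 1, by omega⟩
      rw [Nat.add_sub_cancel, pow_succ']; rfl
  rw [LinearMap.add_apply, LinearMap.smul_apply, LinearMap.comp_apply, LinearMap.comp_apply,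
    e2, e3, smul_smul, ← add_smul]
  congr 1
  rw [ev]
  push_cast
  ring

/-- the abstract form -/
theorem main {C : (V →ₗ[K] V) → Prop} (hC : Closed C) (hLC : C L) (hΛC : C Λ)
    (hL : ∀ i, ∀ x ∈ P i, i ≤ n → (L ^ (n - i + 1)) x = 0)
    (hΛ : ∀ i r, ∀ x ∈ P i, i ≤ n → r ≤ n - i →
      Λ ((L ^ r) x) = ((r * (n - i - r + 1) : ℕ) : K) • (L ^ (r - 1)) x)
    (hdec : ∀ x, ∃ f : ℕ → ℕ → V, (∀ i r, f i r ∈ P i) ∧
      x = ∑ i ∈ Finset.range (n + 1), ∑ r ∈ Finset.range (n - i + 1), (L ^ r) (f i r)) :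
    ∃ p : ℕ → ℕ → (V →ₗ[K] V), (∀ i r, C (p i r)) ∧ (∀ i r x, p i r x ∈ P i) ∧
      (∀ i r, n < i ∨ n - i < r → p i r = 0) ∧
      (∀ i r i' r' x, i' ≤ n → r' ≤ n - i' → x ∈ P i' →
        p i r ((L ^ r') x) = if i = i' ∧ r = r' then x else 0) ∧
      ∀ x, x = ∑ i ∈ Finset.range (n + 1), ∑ r ∈ Finset.range (n - i + 1),
        (L ^ r) (p i r x) := by
  classical
  set D : V →ₗ[K] V := Λ ∘ₗ L + ((((n + 1) ^ 2 : ℕ) : ℚ) : K) • (L ∘ₗ Λ) with hD
  have hDC : C D := hC.add (hC.comp hΛC hLC) (hC.smul _ (hC.comp hLC hΛC))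
  have key : ∀ i r, ∃ q : V →ₗ[K] V, C q ∧ (n < i ∨ n - i < r → q = 0) ∧
      ∀ i' r' x, i' ≤ n → r' ≤ n - i' → x ∈ P i' →
        q ((L ^ r') x) = if i = i' ∧ r = r' then x else 0 := by
    intro i r
    by_cases hir : n < i ∨ n - i < r
    · refine ⟨0, hC.zero, fun _ => rfl, fun i' r' x hi' hr' _ => ?_⟩
      rw [if_neg (by omega), LinearMap.zero_apply]
    · push Not at hir
      set I : Finset (ℕ × ℕ) := (Finset.range (n + 1) ×ˢ Finset.range (n + 1)).filter
        (fun q => q.1 ≤ n ∧ q.2 ≤ n - q.1) with hI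
      obtain ⟨u, hu, h1, h2⟩ := lagr hC hDC (ev n i r)
        ((I.image (fun q => ev n q.1 q.2)).erase (ev n i r)) (by simp)
      obtain ⟨t, ht, h3⟩ := lower (L := L) hC hΛC hΛ hir.1 r hir.2
      refine ⟨t ∘ₗ u, hC.comp ht hu, fun h => absurd h (by omega), fun i' r' x hi' hr' hx => ?_⟩
      rw [LinearMap.comp_apply]
      by_cases he : i = i' ∧ r = r'
      · obtain ⟨rfl, rfl⟩ := he
        rw [h1 _ (D_apply hL hΛ hx hi' hr'), h3 x hx, if_pos ⟨rfl, rfl⟩]
      · rw [if_neg he, h2 (ev n i' r') ?_ _ (D_apply hL hΛ hx hi' hr'), map_zero]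
        rw [Finset.mem_erase]
        refine ⟨fun h => he ?_, ?_⟩
        · obtain ⟨h4, h5⟩ := ev_inj hi' hr' hir.1 hir.2 h
          exact ⟨h4.symm, h5.symm⟩
        · rw [Finset.mem_image]
          refine ⟨(i', r'), ?_, rfl⟩
          rw [hI, Finset.mem_filter, Finset.mem_product, Finset.mem_range, Finset.mem_range]
          exact ⟨⟨by omega, by simp only; omega⟩, hi', hr'⟩
  choose p hp1 hp2 hp3 using key
  have hp4 : ∀ (f : ℕ → ℕ → V), (∀ i r, f i r ∈ P i) → ∀ i r,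
      p i r (∑ i' ∈ Finset.range (n + 1), ∑ r' ∈ Finset.range (n - i' + 1), (L ^ r') (f i' r'))
        = ∑ i' ∈ Finset.range (n + 1), ∑ r' ∈ Finset.range (n - i' + 1),
          if i = i' ∧ r = r' then f i' r' else 0 := by
    intro f hf i r
    rw [map_sum]
    refine Finset.sum_congr rfl fun i' hi' => ?_
    rw [map_sum]
    refine Finset.sum_congr rfl fun r' hr' => ?_
    rw [Finset.mem_range] at hi' hr'
    exact hp3 i r i' r' _ (by omega) (by omega) (hf i' r')
  refine ⟨p, hp1, ?_, hp2, fun i r => hp3 i r, ?_⟩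
  · intro i r x
    obtain ⟨f, hf, hx⟩ := hdec x
    rw [hx, hp4 f hf]
    refine Submodule.sum_mem _ fun i' _ => Submodule.sum_mem _ fun r' _ => ?_
    split_ifs with h
    · rw [h.1]; exact hf i' r'
    · exact zero_mem _
  · intro x
    obtain ⟨f, hf, hx⟩ := hdec x
    have e1 : ∀ i ∈ Finset.range (n + 1), ∀ r ∈ Finset.range (n - i + 1), p i r x = f i r := by
      intro i hi r hr
      conv_lhs => rw [hx]
      rw [hp4 f hf, Finset.sum_eq_single_of_mem i hi, Finset.sum_eq_single_of_mem r hr]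
      · simp
      · intro r' _ h
        rw [if_neg (by tauto)]
      · intro i' _ h
        refine Finset.sum_eq_zero fun r' _ => ?_
        rw [if_neg (by tauto)]
    conv_lhs => rw [hx]
    refine Finset.sum_congr rfl fun i hi => Finset.sum_congr rfl fun r hr => ?_
    rw [e1 i hi r hr]

end

end LPr

variable {k : Type u} [Field k] {K : Type v} [Field K] [CharZero K]
  {W : CohomologyData.{u, v, w} k K} {𝒱 : VarietyClass k}

/-- the projectors of the Lefschetz decomposition are algebraic if `Λ` is algebraic -/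
theorem exists_lefProj (hW : IsWeilCohomology W 𝒱) {X : Sch k} {n : ℕ} (hX : 𝒱.mem X n)
    {ξ : W.coh X} (hξ : ξ ∈ W.alg X 1) (hL : HardLefschetz W X n ξ)
    (hΛ : AlgebraicLambda W X n ξ) : Nonempty (LefProj W X n ξ) := by
  obtain ⟨l, hl, h1⟩ := hΛ
  have hC : LPr.Closed (K := K) (AlgOp W X) :=
    { zero := AlgOp.zero hW hX
      add := fun h h' => AlgOp.add hW hX h h'
      smul := fun q _ h => AlgOp.smul hW hX q h
      comp := fun h h' => AlgOp.comp hW hX h h'
      id := AlgOp.id hW hX }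
  have hpow : ∀ (r : ℕ) (x : W.coh X), (LinearMap.mulLeft K ξ ^ r) x = ξ ^ r * x := by
    intro r x
    rw [LinearMap.pow_mulLeft, LinearMap.mulLeft_apply]
  let Λ : W.coh X →ₗ[K] W.coh X :=
    { toFun := fun s => act W l s
      map_add' := fun s s' => by simp only [act]; rw [map_add, add_mul, map_add]
      map_smul' := fun c s => by
        simp only [act, RingHom.id_apply]; rw [map_smul, smul_mul_assoc, map_smul] }
  have hΛC : AlgOp W X Λ := ⟨l, alg_le_tot hW _ _ hl, fun s => rfl⟩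
  obtain ⟨p, p1, p2, p3, p4, p5⟩ := LPr.main (L := LinearMap.mulLeft K ξ) (Λ := Λ)
    (P := fun i => PS W X n ξ i) (n := n) hC
    (AlgOp.mulLeft hW hX (alg_le_tot hW _ _ hξ)) hΛC
    (fun i x hx _ => by rw [hpow]; exact hx.2)
    (fun i r x hx hi hr => by
      rw [hpow, hpow]
      exact h1 i r x hi hr hx)
    (fun x => by
      obtain ⟨f, hf, hx⟩ := lef_dec hW hX hξ hL x
      refine ⟨f, hf, ?_⟩
      simp only [hpow]
      exact hx)
  exact ⟨{ p := p, alg := p1, mem := p2, out := p3,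
           proj := fun i r i' r' x hi' hr' hx => by
             rw [← p4 i r i' r' x hi' hr' hx, hpow]
           sum := fun x => by
             have h := p5 x
             simp only [hpow] at h
             exact h }⟩

end Pool.Agent.Lib.MP_361a6f_ag.SQ
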