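import Pool.Agent.Lib.MP_361a6f_ag.SQ.Defs
import Pool.Agent.Lib.MP_361a6f_ag.H3.Powers
import Pool.Agent.Lib.MP_361a6f_ag.H3.FrobMain
import Pool.Agent.Lib.MP_361a6f_ag.H3.Corr

/-!
# Internal definitions for the proof
-/

open CategoryTheory AlgebraicGeometry MonoidalCategory CartesianMonoidalCategory

universe u v w

set_option linter.unusedSectionVars false

namespace Pool.Agent.Lib.MP_361a6f_ag.SQ

open Pool.Agent.Lib.MP_361a6f_ag.H3

variable {k : Type u} [Field k] {K : Type v} [Field K] [CharZero K]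

/-- sums of algebraic classes of all codimensions -/
def tot (W : CohomologyData.{u, v, w} k K) (Z : Sch k) : AddSubgroup (W.coh Z) :=
  ⨆ j, W.alg Z j

/-- the operator `u` on `H(X)` is given by an algebraic class on `X × X` -/
def AlgOp (W : CohomologyData.{u, v, w} k K) (X : Sch k) (u : W.coh X →ₗ[K] W.coh X) : Prop :=
  ∃ γ ∈ tot W (X ⊗ X), ∀ s, u s = act W γ s

/-- primitive classes of degree `i` -/
def PS (W : CohomologyData.{u, v, w} k K) (X : Sch k) (n : ℕ) (ξ : W.coh X) (i : ℕ) :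
    Submodule K (W.coh X) where
  carrier := {x | x ∈ W.gr X i ∧ ξ ^ (n - i + 1) * x = 0}
  add_mem' := by
    rintro x y ⟨hx, hx'⟩ ⟨hy, hy'⟩
    exact ⟨add_mem hx hy, by rw [mul_add, hx', hy', add_zero]⟩
  zero_mem' := ⟨zero_mem _, mul_zero _⟩
  smul_mem' := by
    rintro c x ⟨hx, hx'⟩
    exact ⟨Submodule.smul_mem _ c hx, by rw [mul_smul_comm, hx', smul_zero]⟩

/-- transcendental primitive classes of degree `i` -/
def TS (W : CohomologyData.{u, v, w} k K) (X : Sch k) (n : ℕ) (ξ : W.coh X) (i : ℕ) :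
    Submodule K (W.coh X) where
  carrier := {x | x ∈ PS W X n ξ i ∧ ∀ j, ∀ a ∈ W.alg X j, W.tr X (x * a) = 0}
  add_mem' := by
    rintro x y ⟨hx, hx'⟩ ⟨hy, hy'⟩
    exact ⟨add_mem hx hy, fun j a ha => by rw [add_mul, map_add, hx' j a ha, hy' j a ha, add_zero]⟩
  zero_mem' := ⟨zero_mem _, fun j a _ => by rw [zero_mul, map_zero]⟩
  smul_mem' := by
    rintro c x ⟨hx, hx'⟩
    exact ⟨Submodule.smul_mem _ c hx, fun j a ha => by
      rw [smul_mul_assoc, map_smul, hx' j a ha, smul_zero]⟩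

/-- The operators `ξ^r x ↦ x` (`x` primitive of degree `i`), extended by zero on the other
pieces of the Lefschetz decomposition. -/
structure LefProj (W : CohomologyData.{u, v, w} k K) (X : Sch k) (n : ℕ) (ξ : W.coh X) where
  p : ℕ → ℕ → (W.coh X →ₗ[K] W.coh X)
  alg : ∀ i r, AlgOp W X (p i r)
  mem : ∀ i r x, p i r x ∈ PS W X n ξ i
  out : ∀ i r, n < i ∨ n - i < r → p i r = 0
  proj : ∀ i r i' r' x, i' ≤ n → r' ≤ n - i' → x ∈ PS W X n ξ i' →
    p i r (ξ ^ r' * x) = if i = i' ∧ r = r' then x else 0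
  sum : ∀ x, x = ∑ i ∈ Finset.range (n + 1), ∑ r ∈ Finset.range (n - i + 1), ξ ^ r * p i r x

/-- positivity on the algebraic classes in `S ⊗ S'`, `S ⊆ P^i(Y)`, `S' ⊆ P^i'(X)` -/
def PosOn (W : CohomologyData.{u, v, w} k K) (Y X : Sch k) (d n : ℕ) (l : W.coh Y) (ξ : W.coh X)
    (i i' : ℕ) (S : Submodule K (W.coh Y)) (S' : Submodule K (W.coh X)) : Prop :=
  ∀ c, i + i' = 2 * c → ∀ z ∈ W.alg (Y ⊗ X) c, z ∈ tens W S S' → z ≠ 0 →
    RatPos ((-1) ^ c * W.tr (Y ⊗ X)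
      (W.pull (fst Y X) (l ^ (d - i)) * W.pull (snd Y X) (ξ ^ (n - i')) * (z * z)))

end Pool.Agent.Lib.MP_361a6f_ag.SQ
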