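import Pool.Agent.Lib.MP_361a6f_ag.H3.Defs

/-!
# Products of two varieties with simple transcendental Frobenius spectrum: the definitions used
in the statement
-/

open CategoryTheory AlgebraicGeometry MonoidalCategory CartesianMonoidalCategory

universe u v w

namespace Pool.Agent.Lib.MP_361a6f_ag.SQ

open Pool.Agent.Lib.MP_361a6f_ag.H3

variable {k : Type u} [Field k] {K : Type v} [Field K]

/-- Hard Lefschetz for `(X, ξ)`: multiplication by `ξ^(n-i)` is injective on `H^i(X)` for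
`i ≤ n`. -/
def HardLefschetz (W : CohomologyData.{u, v, w} k K) (X : Sch k) (n : ℕ) (ξ : W.coh X) : Prop :=
  ∀ i x, i ≤ n → W.Deg X i x → W.cup (ξ ^ (n - i)) x = 0 → x = 0

/-- `x` is a primitive class of degree `i`: it lies in `H^i(X)` and `ξ^(n-i+1) x = 0`. -/
def Primitive (W : CohomologyData.{u, v, w} k K) (X : Sch k) (n : ℕ) (ξ : W.coh X) (i : ℕ)
    (x : W.coh X) : Prop :=
  W.Deg X i x ∧ W.cup (ξ ^ (n - i + 1)) x = 0

/-- The standard conjecture of Lefschetz type for `(X, ξ)`: the operator `Λ` with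
`Λ(ξ^r x) = r (n-i-r+1) ξ^(r-1) x` for primitive `x` of degree `i ≤ n` and `r ≤ n-i` is given by an
algebraic class of codimension `n-1` on `X × X`. -/
def AlgebraicLambda (W : CohomologyData.{u, v, w} k K) (X : Sch k) (n : ℕ) (ξ : W.coh X) : Prop :=
  ∃ l : W.coh (X.prod X), W.IsAlg (X.prod X) (n - 1) l ∧ ∀ i r x, i ≤ n → r ≤ n - i →
    Primitive W X n ξ i x →
      W.pf (X.pr₂ X) (W.cup (W.pb (X.pr₁ X) (W.cup (ξ ^ r) x)) l)
        = W.scal ((r * (n - i - r + 1) : ℕ) : K) (W.cup (ξ ^ (r - 1)) x)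

/-- `Q1` for `(X, ξ)` in codimension `j`. -/
def HodgeCodim (W : CohomologyData.{u, v, w} k K) (X : Sch k) (n : ℕ) (ξ : W.coh X) (j : ℕ) :
    Prop :=
  2 * j ≤ n → ∀ x, W.IsAlg X j x → W.cup (ξ ^ (n - 2 * j + 1)) x = 0 → x ≠ 0 →
    RatPos ((-1) ^ j * W.Tr (W.cup (ξ ^ (n - 2 * j)) (W.cup x x)))

/-- `x` is a primitive class of degree `i` with `Tr(x a) = 0` for all algebraic classes `a`. -/
def TransPrim (W : CohomologyData.{u, v, w} k K) (X : Sch k) (n : ℕ) (ξ : W.coh X) (i : ℕ)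
    (x : W.coh X) : Prop :=
  Primitive W X n ξ i x ∧ ∀ j a, W.IsAlg X j a → W.Tr (W.cup x a) = 0

/-- A basis of the space of all `x` with `TransPrim W X n ξ i x`, together with the matrix of
`F^*` in this basis; the characteristic polynomial of `F^*` on this space is `Φ`. -/
structure TransBasis [CharZero K] (W : CohomologyData.{u, v, w} k K) (X : Sch k) (n : ℕ)
    (ξ : W.coh X) (i : ℕ) (F : Sch.Mor X X) (Φ : Polynomial ℚ) where
  b : ℕ
  v : Fin b → W.coh X
  mem : ∀ m, TransPrim W X n ξ i (v m)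
  indep : LinearIndependent K v
  span : ∀ x, TransPrim W X n ξ i x → x ∈ Submodule.span K (Set.range v)
  A : Matrix (Fin b) (Fin b) K
  act : ∀ m, W.pb F (v m) = ∑ l, W.scal (A l m) (v l)
  charpoly : A.charpoly = Φ.map (algebraMap ℚ K)

/-- The class `c pr₁^* ξ + c' pr₂^* η` on `X × Y`. -/
noncomputable def pol (W : CohomologyData.{u, v, w} k K) {X Y : Sch k} (c : K) (ξ : W.coh X)
    (c' : K) (η : W.coh Y) : W.coh (X.prod Y) :=
  W.scal c (W.pb (X.pr₁ Y) ξ) + W.scal c' (W.pb (X.pr₂ Y) η)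

/-- The endomorphisms `F a` of the varieties `X a` (of dimension `n a`) act like the `q`-Frobenius
endomorphisms of models over the field with `q` elements: `F a` has degree `q^(n a)`, it multiplies
`ξ a` by `q`, and every algebraic class of codimension `j` on `X a × X b` is multiplied by
`q^(j s)` under some iterate `s ≥ 1` of `F a × F b`. -/
structure FrobeniusFamily (W : CohomologyData.{u, v, w} k K) {m : ℕ} (X : Fin m → Sch k)
    (n : Fin m → ℕ) (ξ : ∀ a, W.coh (X a)) (F : ∀ a, Sch.Mor (X a) (X a)) (q : ℕ) : Prop where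
  deg : ∀ a x, W.Tr (W.pb (F a) x) = (q : K) ^ (n a) * W.Tr x
  pol : ∀ a, W.pb (F a) (ξ a) = W.scal (q : K) (ξ a)
  alg : ∀ a b j z, W.IsAlg ((X a).prod (X b)) j z →
    ∃ s : ℕ, 0 < s ∧ (W.pb (F a ⊗ₘ F b))^[s] z = W.scal ((q : K) ^ (j * s)) z

/-- The polynomials `Φ a i` (the characteristic polynomials of Frobenius on the transcendental
primitive cohomology of degree `i ≤ n a` of `X a`) have complex roots of absolute value `q^(i/2)`;
they have simple roots for `i ≠ 1`; and if `α`, `β` are roots of `Φ a i` and `Φ b j` with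
`(i, j) ≠ (1, 1)` and `i + j = 2 c`, such that `α β / q^c` is a root of unity, then `a = b`, `i = j`
and `β` is the complex conjugate of `α`. -/
structure SimpleSpectrum {m : ℕ} (n : Fin m → ℕ) (q : ℕ) (Φ : Fin m → ℕ → Polynomial ℚ) :
    Prop where
  abs : ∀ a i (α : ℂ), i ≤ n a → Polynomial.aeval α (Φ a i) = 0 → ‖α‖ ^ 2 = (q : ℝ) ^ i
  simple : ∀ a i, i ≤ n a → i ≠ 1 → (Φ a i).Separable
  unique : ∀ a b i j c s (α β : ℂ), i ≤ n a → j ≤ n b → i + j = 2 * c → ¬ (i = 1 ∧ j = 1) →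
    Polynomial.aeval α (Φ a i) = 0 → Polynomial.aeval β (Φ b j) = 0 → 0 < s →
    (α * β) ^ s = ((q : ℂ) ^ c) ^ s → a = b ∧ i = j ∧ β = starRingEnd ℂ α

end Pool.Agent.Lib.MP_361a6f_ag.SQ
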