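import Pool.Agent.Lib.MP_361a6f_ag.SQ.Core

/-!
# Endomorphisms of the cohomology of a product
-/

open CategoryTheory AlgebraicGeometry MonoidalCategory CartesianMonoidalCategory

universe u v w

set_option linter.unusedSectionVars false

namespace Pool.Agent.Lib.MP_361a6f_ag.SQ

open Pool.Agent.Lib.MP_361a6f_ag.H3

variable {k : Type u} [Field k] {K : Type v} [Field K] [CharZero K]
  {W : CohomologyData.{u, v, w} k K} {𝒱 : VarietyClass k}

/-- two linear maps that agree on exterior products are equal -/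
theorem lin_ext (hW : IsWeilCohomology W 𝒱) {Y X : Sch k} {d n : ℕ} (hY : 𝒱.mem Y d)
    (hX : 𝒱.mem X n) {M : Type*} [AddCommGroup M] [Module K M] (f g : W.coh (Y ⊗ X) →ₗ[K] M)
    (h : ∀ y x, f (W.pull (fst Y X) y * W.pull (snd Y X) x)
      = g (W.pull (fst Y X) y * W.pull (snd Y X) x)) : f = g := by
  refine LinearMap.ext fun z => ?_
  refine prod_induction hW hY hX (P := fun z => f z = g z) z h ?_ ?_ ?_
  · rw [map_zero, map_zero]
  · intro a b ha hb
    rw [map_add, map_add, ha, hb]
  · intro c a ha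
    rw [map_smul, map_smul, ha]

/-- the pairing `(y, x) ↦ Tr(x y)` as a map to the dual space -/
noncomputable def dmap (W : CohomologyData.{u, v, w} k K) (X : Sch k) :
    W.coh X →ₗ[K] (W.coh X →ₗ[K] K) :=
  LinearMap.mk₂ K (fun y x => W.tr X (x * y))
    (fun y y' x => by rw [mul_add, map_add])
    (fun c y x => by rw [mul_smul_comm, map_smul])
    (fun y x x' => by rw [add_mul, map_add])
    (fun c y x => by rw [smul_mul_assoc, map_smul])

theorem dmap_apply (X : Sch k) (y x : W.coh X) : dmap W X y x = W.tr X (x * y) := rfl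

/-- dual basis for the trace pairing -/
theorem exists_dual (hW : IsWeilCohomology W 𝒱) {X : Sch k} {n : ℕ} (hX : 𝒱.mem X n) :
    ∃ (m : ℕ) (b b' : Fin m → W.coh X), ∀ x, x = ∑ j, W.tr X (x * b' j) • b j := by
  have : Module.Finite K (W.coh X) := hW.finite hX
  have hflip : Function.Injective (dmap W X).flip := by
    rw [← LinearMap.ker_eq_bot, LinearMap.ker_eq_bot']
    intro x hx
    refine hW.duality hX x (fun y => ?_)
    have := LinearMap.congr_fun hx y
    simpa [LinearMap.flip_apply, dmap_apply] using this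
  have hsur : Function.Surjective (dmap W X).flip := by
    refine (LinearMap.injective_iff_surjective_of_finrank_eq_finrank ?_).1 hflip
    exact (Subspace.dual_finrank_eq (K := K) (V := W.coh X)).symm
  have hinj : Function.Injective (dmap W X) := by
    rw [← LinearMap.ker_eq_bot, LinearMap.ker_eq_bot']
    intro y hy
    rw [← Module.forall_dual_apply_eq_zero_iff K y]
    intro φ
    obtain ⟨x, rfl⟩ := hsur φ
    rw [LinearMap.flip_apply, hy, LinearMap.zero_apply]
  have hsur' : Function.Surjective (dmap W X) := by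
    refine (LinearMap.injective_iff_surjective_of_finrank_eq_finrank ?_).1 hinj
    exact (Subspace.dual_finrank_eq (K := K) (V := W.coh X)).symm
  let b := Module.finBasis K (W.coh X)
  choose c hc using fun j => hsur' (b.coord j)
  refine ⟨_, b, c, fun x => ?_⟩
  conv_lhs => rw [← b.sum_repr x]
  refine Finset.sum_congr rfl fun j _ => ?_
  rw [← dmap_apply, hc j, Module.Basis.coord_apply]

theorem exists_ten (hW : IsWeilCohomology W 𝒱) {Y X : Sch k} {d n : ℕ} (hY : 𝒱.mem Y d)
    (hX : 𝒱.mem X n) (u : W.coh Y →ₗ[K] W.coh Y) (v : W.coh X →ₗ[K] W.coh X) :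
    ∃ t : W.coh (Y ⊗ X) →ₗ[K] W.coh (Y ⊗ X), ∀ y x,
      t (W.pull (fst Y X) y * W.pull (snd Y X) x)
        = W.pull (fst Y X) (u y) * W.pull (snd Y X) (v x) := by
  obtain ⟨m, b, b', hb⟩ := exists_dual hW hX
  refine ⟨∑ j, (LinearMap.mulRight K (W.pull (snd Y X) (v (b j)))).comp
    ((W.pull (fst Y X)).toLinearMap.comp (u.comp ((W.push (fst Y X)).comp
      (LinearMap.mulRight K (W.pull (snd Y X) (b' j)))))), fun y x => ?_⟩
  have e : ∀ j, ((LinearMap.mulRight K (W.pull (snd Y X) (v (b j)))).comp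
    ((W.pull (fst Y X)).toLinearMap.comp (u.comp ((W.push (fst Y X)).comp
      (LinearMap.mulRight K (W.pull (snd Y X) (b' j)))))))
        (W.pull (fst Y X) y * W.pull (snd Y X) x)
      = W.pull (fst Y X) (u y) * W.pull (snd Y X) (v (W.tr X (x * b' j) • b j)) := by
    intro j
    rw [LinearMap.comp_apply, LinearMap.comp_apply, LinearMap.comp_apply, LinearMap.comp_apply,
      LinearMap.mulRight_apply, LinearMap.mulRight_apply, mul_assoc, ← map_mul,
      hW.push_fst hY hX, map_smul u, AlgHom.toLinearMap_apply, map_smul (W.pull (fst Y X)),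
      map_smul v, map_smul (W.pull (snd Y X)), smul_mul_assoc, mul_smul_comm]
  rw [LinearMap.sum_apply, Finset.sum_congr rfl (fun j _ => e j), ← Finset.mul_sum, ← map_sum,
    ← map_sum, ← hb x]

/-- the map `u ⊗ v` on `H(Y × X)` -/
noncomputable def ten (hW : IsWeilCohomology W 𝒱) {Y X : Sch k} {d n : ℕ} (hY : 𝒱.mem Y d)
    (hX : 𝒱.mem X n) (u : W.coh Y →ₗ[K] W.coh Y) (v : W.coh X →ₗ[K] W.coh X) :
    W.coh (Y ⊗ X) →ₗ[K] W.coh (Y ⊗ X) :=
  (exists_ten hW hY hX u v).choose

theorem ten_gen (hW : IsWeilCohomology W 𝒱) {Y X : Sch k} {d n : ℕ} (hY : 𝒱.mem Y d)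
    (hX : 𝒱.mem X n) (u : W.coh Y →ₗ[K] W.coh Y) (v : W.coh X →ₗ[K] W.coh X)
    (y : W.coh Y) (x : W.coh X) :
    ten hW hY hX u v (W.pull (fst Y X) y * W.pull (snd Y X) x)
      = W.pull (fst Y X) (u y) * W.pull (snd Y X) (v x) :=
  (exists_ten hW hY hX u v).choose_spec y x

/-- an element of `H(Y × X)` is determined by its traces against exterior products of
homogeneous elements -/
theorem eq_of_tr (hW : IsWeilCohomology W 𝒱) {Y X : Sch k} {d n : ℕ} (hY : 𝒱.mem Y d)
    (hX : 𝒱.mem X n) (z z' : W.coh (Y ⊗ X))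
    (h : ∀ i i', ∀ y ∈ W.gr Y i, ∀ x ∈ W.gr X i',
      W.tr (Y ⊗ X) (z * (W.pull (fst Y X) y * W.pull (snd Y X) x))
        = W.tr (Y ⊗ X) (z' * (W.pull (fst Y X) y * W.pull (snd Y X) x))) : z = z' := by
  rw [← sub_eq_zero]
  refine hW.duality (𝒱.prod hY hX) _ (fun w => ?_)
  rw [sub_mul, map_sub, sub_eq_zero]
  refine prod_induction hW hY hX (P := fun w => W.tr (Y ⊗ X) (z * w) = W.tr (Y ⊗ X) (z' * w)) w
    ?_ ?_ ?_ ?_
  · intro y x
    refine hW.hom_induction hY (P := fun y =>
      W.tr (Y ⊗ X) (z * (W.pull (fst Y X) y * W.pull (snd Y X) x))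
        = W.tr (Y ⊗ X) (z' * (W.pull (fst Y X) y * W.pull (snd Y X) x))) y ?_ ?_ ?_
    · intro i y hy
      refine hW.hom_induction hX (P := fun x =>
        W.tr (Y ⊗ X) (z * (W.pull (fst Y X) y * W.pull (snd Y X) x))
          = W.tr (Y ⊗ X) (z' * (W.pull (fst Y X) y * W.pull (snd Y X) x))) x ?_ ?_ ?_
      · intro i' x hx
        exact h i i' y hy x hx
      · simp
      · intro x x' hx hx'
        rw [map_add, mul_add, mul_add, mul_add, map_add, map_add, hx, hx']
    · simp
    · intro y y' hy hy'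
      rw [map_add, add_mul, mul_add, mul_add, map_add, map_add, hy, hy']
  · simp
  · intro a b ha hb
    rw [mul_add, mul_add, map_add, map_add, ha, hb]
  · intro c a ha
    rw [mul_smul_comm, mul_smul_comm, map_smul, map_smul, ha]

end Pool.Agent.Lib.MP_361a6f_ag.SQ
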