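import Pool.Agent.Lib.MP_361a6f_ag.SQ.Core

/-!
# Sums of algebraic classes
-/

open CategoryTheory AlgebraicGeometry MonoidalCategory CartesianMonoidalCategory

universe u v w

set_option linter.unusedSectionVars false

namespace Pool.Agent.Lib.MP_361a6f_ag.SQ

open Pool.Agent.Lib.MP_361a6f_ag.H3

variable {k : Type u} [Field k] {K : Type v} [Field K] [CharZero K]
  {W : CohomologyData.{u, v, w} k K} {𝒱 : VarietyClass k}

section tot

variable (hW : IsWeilCohomology W 𝒱)
include hW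

theorem alg_le_tot (Z : Sch k) (j : ℕ) : W.alg Z j ≤ tot W Z := le_iSup _ j

/-- induction for sums of algebraic classes -/
theorem tot_induction {Z : Sch k} {P : W.coh Z → Prop} {z : W.coh Z} (hz : z ∈ tot W Z)
    (halg : ∀ j, ∀ x ∈ W.alg Z j, P x) (hadd : ∀ x y, P x → P y → P (x + y)) : P z := by
  refine AddSubgroup.iSup_induction (fun j => W.alg Z j) (C := P) hz halg
    (halg 0 0 (zero_mem _)) hadd

/-- the homogeneous components of a sum of algebraic classes -/
theorem tot_comp {Z : Sch k} {e : ℕ} (hZ : 𝒱.mem Z e) {z : W.coh Z} (hz : z ∈ tot W Z)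
    (i : ℕ) (hg : z ∈ W.gr Z i) :
    (∀ j, i = 2 * j → z ∈ W.alg Z j) ∧ (¬ 2 ∣ i → z = 0) := by
  classical
  let _ : DirectSum.Decomposition (W.gr Z) := (hW.internal hZ).chooseDecomposition
  have key : ∀ i : ℕ, (∀ j, i = 2 * j → (DirectSum.decompose (W.gr Z) z i : W.coh Z) ∈ W.alg Z j) ∧
      (¬ 2 ∣ i → (DirectSum.decompose (W.gr Z) z i : W.coh Z) = 0) := by
    intro i
    refine tot_induction hW (P := fun z =>
      (∀ j, i = 2 * j → (DirectSum.decompose (W.gr Z) z i : W.coh Z) ∈ W.alg Z j) ∧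
      (¬ 2 ∣ i → (DirectSum.decompose (W.gr Z) z i : W.coh Z) = 0)) hz ?_ ?_
    · intro l x hx
      have hx' := hW.alg_gr hZ hx
      refine ⟨?_, ?_⟩
      · rintro j rfl
        by_cases hjl : j = l
        · subst hjl
          rw [DirectSum.decompose_of_mem_same _ hx']
          exact hx
        · rw [DirectSum.decompose_of_mem_ne _ hx' (by omega)]
          exact zero_mem _
      · intro hi
        rw [DirectSum.decompose_of_mem_ne _ hx' (by rintro rfl; exact hi ⟨l, rfl⟩)]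
    · intro x y hx hy
      rw [DirectSum.decompose_add]
      refine ⟨?_, ?_⟩
      · intro j hj
        rw [DirectSum.add_apply, Submodule.coe_add]
        exact add_mem (hx.1 j hj) (hy.1 j hj)
      · intro hi
        rw [DirectSum.add_apply, Submodule.coe_add, hx.2 hi, hy.2 hi, add_zero]
  have h1 := key i
  rw [DirectSum.decompose_of_mem_same _ hg] at h1
  exact h1

/-- a homogeneous sum of algebraic classes is algebraic -/
theorem tot_alg {Z : Sch k} {e : ℕ} (hZ : 𝒱.mem Z e) {z : W.coh Z} (hz : z ∈ tot W Z) {j : ℕ}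
    (hg : z ∈ W.gr Z (2 * j)) : z ∈ W.alg Z j :=
  (tot_comp hW hZ hz (2 * j) hg).1 j rfl

/-- a homogeneous sum of algebraic classes of odd degree vanishes -/
theorem tot_odd {Z : Sch k} {e : ℕ} (hZ : 𝒱.mem Z e) {z : W.coh Z} (hz : z ∈ tot W Z) {i : ℕ}
    (hi : ¬ 2 ∣ i) (hg : z ∈ W.gr Z i) : z = 0 :=
  (tot_comp hW hZ hz i hg).2 hi

theorem tot_smul {Z : Sch k} {e : ℕ} (hZ : 𝒱.mem Z e) (q : ℚ) {z : W.coh Z} (hz : z ∈ tot W Z) :
    (q : K) • z ∈ tot W Z := by
  refine tot_induction hW (P := fun z => (q : K) • z ∈ tot W Z) hz ?_ ?_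
  · intro j x hx
    exact alg_le_tot hW Z j (CohomologyData.alg_smul q hx)
  · intro x y hx hy
    rw [smul_add]
    exact add_mem hx hy

theorem tot_comm {Z : Sch k} {e : ℕ} (hZ : 𝒱.mem Z e) {z : W.coh Z} (hz : z ∈ tot W Z)
    (y : W.coh Z) : z * y = y * z := by
  refine tot_induction hW (P := fun z => z * y = y * z) hz ?_ ?_
  · intro j x hx
    exact hW.alg_comm hZ hx y
  · intro x x' hx hx'
    rw [add_mul, mul_add, hx, hx']

theorem tot_mul {Z : Sch k} {e : ℕ} (hZ : 𝒱.mem Z e) {z z' : W.coh Z} (hz : z ∈ tot W Z)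
    (hz' : z' ∈ tot W Z) : z * z' ∈ tot W Z := by
  refine tot_induction hW (P := fun z => z * z' ∈ tot W Z) hz ?_ ?_
  · intro j x hx
    refine tot_induction hW (P := fun z' => x * z' ∈ tot W Z) hz' ?_ ?_
    · intro j' x' hx'
      exact alg_le_tot hW Z (j + j') (hW.mul_alg hZ hx hx')
    · intro y y' hy hy'
      rw [mul_add]
      exact add_mem hy hy'
  · intro x y hx hy
    rw [add_mul]
    exact add_mem hx hy

theorem tot_pull {Z Z' : Sch k} {e e' : ℕ} (hZ : 𝒱.mem Z e) (hZ' : 𝒱.mem Z' e') (f : Z ⟶ Z')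
    {z : W.coh Z'} (hz : z ∈ tot W Z') : W.pull f z ∈ tot W Z := by
  refine tot_induction hW (P := fun z => W.pull f z ∈ tot W Z) hz ?_ ?_
  · intro j x hx
    exact alg_le_tot hW Z j (hW.pull_alg hZ hZ' f hx)
  · intro x y hx hy
    rw [map_add]
    exact add_mem hx hy

theorem tot_push {Z Z' : Sch k} {e e' : ℕ} (hZ : 𝒱.mem Z e) (hZ' : 𝒱.mem Z' e') (f : Z ⟶ Z')
    {z : W.coh Z} (hz : z ∈ tot W Z) : W.push f z ∈ tot W Z' := by
  refine tot_induction hW (P := fun z => W.push f z ∈ tot W Z') hz ?_ ?_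
  · intro j x hx
    rcases Nat.lt_or_ge (j + e') e with h | h
    · rw [hW.push_zero hZ hZ' f (hW.alg_gr hZ hx) (by omega)]
      exact zero_mem _
    · exact alg_le_tot hW Z' (j + e' - e) (hW.push_alg hZ hZ' f hx (by omega))
  · intro x y hx hy
    rw [map_add]
    exact add_mem hx hy

theorem tot_tr {Z : Sch k} {e : ℕ} (hZ : 𝒱.mem Z e) {z : W.coh Z} (hz : z ∈ tot W Z) :
    ∃ q : ℚ, W.tr Z z = q := by
  refine tot_induction hW (P := fun z => ∃ q : ℚ, W.tr Z z = q) hz ?_ ?_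
  · intro j x hx
    by_cases hj : j = e
    · subst hj
      exact hW.tr_alg hZ hx
    · exact ⟨0, by rw [hW.tr_gr hZ (hW.alg_gr hZ hx) (by omega)]; simp⟩
  · rintro x y ⟨q, hq⟩ ⟨r, hr⟩
    exact ⟨q + r, by rw [map_add, hq, hr]; push_cast; rfl⟩

end tot

end Pool.Agent.Lib.MP_361a6f_ag.SQ
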